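import Pool.Agent.V5helper75.VO.Lin

/-!
# Project VO: from exactness modulo 2 to vanishing real homology
-/

set_option autoImplicit false
set_option linter.unusedSectionVars false

namespace Pool.Agent.V5helper75.VO

open Finset Module Pool.Agent.W907.SG Pool.Agent.R703.MO Pool.Agent.R782.Bal

/-- the rank of an integer matrix modulo 2 is at most its rank over the reals -/
theorem rank_mod2 {m n : Type} [Fintype m] [Fintype n] (A : Matrix m n ℤ) :
    (A.map (Int.cast : ℤ → ZMod 2)).rank ≤ (A.map (Int.cast : ℤ → ℝ)).rank := by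
  classical
  set B := A.map (Int.cast : ℤ → ZMod 2) with hB
  set r := finrank (ZMod 2) (LinearMap.range B.mulVecLin) with hr
  have hrank : B.rank = r := rfl
  let b := Module.finBasis (ZMod 2) (LinearMap.range B.mulVecLin)
  have hq : ∀ j : Fin r, ∃ q : n → ZMod 2, B.mulVecLin q = (b j : m → ZMod 2) := fun j => (b j).2
  choose q hq using hq
  have hli : LinearIndependent (ZMod 2) (fun j : Fin r => (b j : m → ZMod 2)) :=
    b.linearIndependent.map' (Submodule.subtype _) (Submodule.ker_subtype _)
  let f : (Fin r → ZMod 2) →ₗ[ZMod 2] (m → ZMod 2) :=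
    Fintype.linearCombination (ZMod 2) (fun j : Fin r => (b j : m → ZMod 2))
  have hf : LinearMap.ker f = ⊥ := by
    rw [LinearMap.ker_eq_bot]
    exact linearIndependent_iff_injective_fintypeLinearCombination.1 hli
  obtain ⟨g, hg⟩ := LinearMap.exists_leftInverse_of_injective f hf
  have hgb : ∀ j : Fin r, g (b j : m → ZMod 2) = Pi.single j 1 := by
    intro j
    have h1 : f (Pi.single j 1) = (b j : m → ZMod 2) := by
      simp [f, Fintype.linearCombination_apply_single]
    rw [← h1]
    exact congrArg (fun h => h (Pi.single j 1)) hg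
  let P : Matrix (Fin r) m (ZMod 2) := LinearMap.toMatrix' g
  let Q : Matrix n (Fin r) (ZMod 2) := Matrix.of fun i j => q j i
  have hPQ : P * B * Q = 1 := by
    ext i j
    have h1 : (P * B * Q) i j = (P.mulVec (B.mulVec (q j))) i := by
      rw [Matrix.mul_assoc]
      simp only [Matrix.mul_apply, Matrix.mulVec, dotProduct, Q, Matrix.of_apply]
    have h2 : B.mulVec (q j) = (b j : m → ZMod 2) := hq j
    have h3 : P.mulVec (b j : m → ZMod 2) = g (b j) := by
      exact LinearMap.toMatrix'_mulVec g _
    rw [h1, h2, h3, hgb j, Matrix.one_apply, Pi.single_apply]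
  have hcast : ∀ z : ZMod 2, (((z.val : ℕ) : ℤ) : ZMod 2) = z := by
    intro z
    simp
  let P' : Matrix (Fin r) m ℤ := P.map (fun z => ((z.val : ℕ) : ℤ))
  let Q' : Matrix n (Fin r) ℤ := Q.map (fun z => ((z.val : ℕ) : ℤ))
  let D : Matrix (Fin r) (Fin r) ℤ := P' * A * Q'
  have hD3 : D.map (Int.castRingHom (ZMod 2)) = 1 := by
    have e1 : P'.map (Int.castRingHom (ZMod 2)) = P := by
      ext i j; simp [P']
    have e2 : Q'.map (Int.castRingHom (ZMod 2)) = Q := by
      ext i j; simp [Q']
    have e3 : A.map (Int.castRingHom (ZMod 2)) = B := rfl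
    simp only [D]
    rw [Matrix.map_mul, Matrix.map_mul, e1, e2, e3, hPQ]
  have hdet : D.det ≠ 0 := by
    intro h0
    have h1 := (Int.castRingHom (ZMod 2)).map_det D
    rw [RingHom.mapMatrix_apply, hD3, h0, map_zero, Matrix.det_one] at h1
    exact zero_ne_one h1
  have hdetR : (D.map (Int.castRingHom ℝ)).det ≠ 0 := by
    have h1 := (Int.castRingHom ℝ).map_det D
    rw [RingHom.mapMatrix_apply] at h1
    rw [← h1]
    simpa using hdet
  have hrD : (D.map (Int.castRingHom ℝ)).rank = r := by
    rw [Matrix.rank_of_det_ne_zero hdetR, Fintype.card_fin]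
  have hmul : D.map (Int.castRingHom ℝ) = P'.map (Int.castRingHom ℝ) *
      A.map (Int.castRingHom ℝ) * Q'.map (Int.castRingHom ℝ) := by
    simp only [D]
    rw [Matrix.map_mul, Matrix.map_mul]
  rw [hrank, ← hrD, hmul]
  exact (Matrix.rank_mul_le_left _ _).trans (Matrix.rank_mul_le_right _ _)

section

variable {V : Type} [Fintype V] [LinearOrder V] (G : SimpleGraph V) (A : Set V)

/-- the simplices of `G` in `A` with `i` elements -/
def Sx (i : ℕ) (T : Finset V) : Prop := G.IsClique (T : Set V) ∧ (T : Set V) ⊆ A ∧ T.card = i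

open Classical in
/-- the integral boundary matrix -/
noncomputable def dm (i : ℕ) : Matrix (Finset V) (Finset V) ℤ :=
  Matrix.of fun T U => ∑ v ∈ Tᶜ, if insert v T = U ∧ Sx G A i U then sg v T else 0

variable {G A}

theorem mem_KK' {F : Type} [Field F] {i : ℕ} {c : Finset V → F} :
    c ∈ KK G (neg F V) A ∅ i ↔ ∀ T, ¬ Sx G A i T → c T = 0 := by
  rw [mem_KK]
  constructor
  · intro h; exact h.1
  · intro h
    exact ⟨h, fun T t _ => by simp [neg]⟩

theorem dm_range (F : Type) [Field F] (i : ℕ) :
    LinearMap.range ((dm G A i).map (Int.cast : ℤ → F)).mulVecLin = (KK G (neg F V) A ∅ i).map (bd F) := by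
  classical
  have key : ∀ c : Finset V → F, ((dm G A i).map (Int.cast : ℤ → F)).mulVecLin c =
      bd F (fun T => if Sx G A i T then c T else 0) := by
    intro c
    funext T
    rw [Matrix.mulVecLin_apply, bd_apply]
    show ∑ U, ((dm G A i T U : ℤ) : F) * c U = _
    have h1 : ∀ U, ((dm G A i T U : ℤ) : F) * c U =
        ∑ v ∈ Tᶜ, if insert v T = U then (if Sx G A i U then sg v T • c U else 0) else 0 := by
      intro U
      rw [dm, Matrix.of_apply, Int.cast_sum, sum_mul]
      refine sum_congr rfl fun v _ => ?_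
      by_cases h2 : insert v T = U
      · by_cases h3 : Sx G A i U
        · rw [if_pos ⟨h2, h3⟩, if_pos h2, if_pos h3, zsmul_eq_mul]
        · rw [if_neg fun h => h3 h.2, if_pos h2, if_neg h3, Int.cast_zero, zero_mul]
      · rw [if_neg fun h => h2 h.1, if_neg h2, Int.cast_zero, zero_mul]
    rw [sum_congr rfl fun U _ => h1 U, sum_comm]
    refine sum_congr rfl fun v _ => ?_
    rw [sum_ite_eq, if_pos (mem_univ _)]
    by_cases h3 : Sx G A i (insert v T)
    · rw [if_pos h3, if_pos h3]
    · rw [if_neg h3, if_neg h3, smul_zero]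
  apply le_antisymm
  · rintro _ ⟨c, rfl⟩
    rw [key]
    refine Submodule.mem_map_of_mem (mem_KK'.2 fun T hT => if_neg hT)
  · rintro _ ⟨c, hc, rfl⟩
    refine ⟨c, ?_⟩
    rw [key]
    congr 1
    funext T
    by_cases h : Sx G A i T
    · rw [if_pos h]
    · rw [if_neg h, mem_KK'.1 hc T h]

theorem finrank_BB (F : Type) [Field F] (i : ℕ) :
    finrank F (BB G (neg F V) A ∅ i) = ((dm G A (i + 1)).map (Int.cast : ℤ → F)).rank := by
  rw [BB, ← dm_range]
  rfl

open Classical in
theorem finrank_KK (F : Type) [Field F] (i : ℕ) :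
    finrank F (KK G (neg F V) A ∅ i) = Fintype.card {T : Finset V // Sx G A i T} := by
  rw [← finrank_fintype_fun_eq_card F]
  refine LinearEquiv.finrank_eq ?_
  refine { toFun := fun c T => c.1 T.1, invFun := fun f => ⟨fun T => if h : Sx G A i T then f ⟨T, h⟩ else 0,
             mem_KK'.2 fun T hT => dif_neg hT⟩,
           map_add' := fun a b => rfl, map_smul' := fun a b => rfl, left_inv := ?_, right_inv := ?_ }
  · rintro ⟨c, hc⟩
    refine Subtype.ext (funext fun T => ?_)
    dsimp only
    by_cases h : Sx G A i T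
    · rw [dif_pos h]
    · rw [dif_neg h, mem_KK'.1 hc T h]
  · intro f
    funext T
    dsimp only
    rw [dif_pos T.2]

theorem rank_null (F : Type) [Field F] (i : ℕ) :
    ((dm G A i).map (Int.cast : ℤ → F)).rank + finrank F (ZZ G (neg F V) A ∅ i) =
      finrank F (KK G (neg F V) A ∅ i) := by
  have h1 := LinearMap.finrank_range_add_finrank_ker ((bd F (V := V) (M := F)).domRestrict (KK G (neg F V) A ∅ i))
  rw [← h1]
  congr 1
  · show finrank F (LinearMap.range ((dm G A i).map (Int.cast : ℤ → F)).mulVecLin) = _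
    rw [dm_range, LinearMap.range_domRestrict]
  · rw [LinearMap.ker_domRestrict, ← Submodule.finrank_map_subtype_eq, Submodule.map_comap_subtype]
    rfl

/-- exactness modulo 2 gives the vanishing of the real homology -/
theorem homZero_of_ex2 {i : ℕ} (h : Ex2 G A i) : HomZero G A i := by
  classical
  have e1 := rank_null (G := G) (A := A) (ZMod 2) i
  have e2 := rank_null (G := G) (A := A) ℝ i
  rw [finrank_KK] at e1 e2
  have e3 := rank_mod2 (dm G A i)
  have e4 := rank_mod2 (dm G A (i + 1))
  have e5 : ZZ G (neg (ZMod 2) V) A ∅ i ≤ BB G (neg (ZMod 2) V) A ∅ i := by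
    rintro z ⟨hz1, hz2⟩
    have hz1' := mem_KK'.1 hz1
    obtain ⟨y, hy1, hy2⟩ := h z (fun ρ hρ => by
      by_contra h1
      exact hρ (hz1' ρ h1)) (fun ρ => by
      have h1 := congrFun (LinearMap.mem_ker.1 hz2) ρ
      rw [bd_apply] at h1
      rw [← Pi.zero_apply (M := fun _ : Finset V => ZMod 2) ρ, ← h1]
      refine sum_congr rfl fun v _ => ?_
      rcases sg_eq_or v ρ with h2 | h2
      · rw [h2, one_smul]
      · rw [h2, neg_smul, one_smul, ZMod.neg_eq_self_mod_two])
    refine ⟨y, mem_KK'.2 fun T hT => ?_, ?_⟩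
    · by_contra h1
      exact hT (hy1 T h1)
    · funext T
      rw [bd_apply, hy2]
      refine sum_congr rfl fun v _ => ?_
      rcases sg_eq_or v T with h2 | h2
      · rw [h2, one_smul]
      · rw [h2, neg_smul, one_smul, ZMod.neg_eq_self_mod_two]
  have e6 := Submodule.finrank_mono e5
  rw [finrank_BB] at e6
  show beta G (neg ℝ V) A ∅ i = 0
  rw [beta, finrank_BB]
  omega

end

end Pool.Agent.V5helper75.VO
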