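import Pool.Agent.V5helper75.VO.Ker

/-!
# Project VO: the cycle
-/

set_option autoImplicit false
set_option linter.unusedSectionVars false

namespace Pool.Agent.V5helper75.VO

open Finset

/-- every vertex is doubled -/
def oct {V : Type} (G : SimpleGraph V) : SimpleGraph (V ×ₗ Bool) where
  Adj p q := G.Adj (ofLex p).1 (ofLex q).1
  symm := ⟨fun _ _ h => SimpleGraph.Adj.symm h⟩
  loopless := ⟨fun _ h => G.loopless.irrefl _ h⟩

section

variable {V : Type} [Fintype V] [LinearOrder V] {G : SimpleGraph V}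

/-- the vertices with the sign `+` -/
def pl (U : Finset (V ×ₗ Bool)) : Finset V := univ.filter (fun v => toLex (v, false) ∈ U)

/-- the vertices with the sign `-` -/
def mi (U : Finset (V ×ₗ Bool)) : Finset V := univ.filter (fun v => toLex (v, true) ∈ U)

/-- the projection -/
def pr (U : Finset (V ×ₗ Bool)) : Finset V := pl U ∪ mi U

theorem mem_pl {U : Finset (V ×ₗ Bool)} {v : V} : v ∈ pl U ↔ toLex (v, false) ∈ U := by simp [pl]

theorem mem_mi {U : Finset (V ×ₗ Bool)} {v : V} : v ∈ mi U ↔ toLex (v, true) ∈ U := by simp [mi]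

theorem mem_pr {U : Finset (V ×ₗ Bool)} {v : V} : v ∈ pr U ↔ ∃ ε, toLex (v, ε) ∈ U := by
  rw [pr, mem_union, mem_pl, mem_mi]
  constructor
  · rintro (h | h)
    · exact ⟨_, h⟩
    · exact ⟨_, h⟩
  · rintro ⟨ε, h⟩
    cases ε
    · exact Or.inl h
    · exact Or.inr h

theorem pl_ins_f (U : Finset (V ×ₗ Bool)) (v : V) : pl (insert (toLex (v, false)) U) = insert v (pl U) := by
  ext u; rw [mem_pl, mem_insert, mem_insert, mem_pl]; simp

theorem pl_ins_t (U : Finset (V ×ₗ Bool)) (v : V) : pl (insert (toLex (v, true)) U) = pl U := by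
  ext u; rw [mem_pl, mem_insert, mem_pl]; simp

theorem mi_ins_f (U : Finset (V ×ₗ Bool)) (v : V) : mi (insert (toLex (v, false)) U) = mi U := by
  ext u; rw [mem_mi, mem_insert, mem_mi]; simp

theorem mi_ins_t (U : Finset (V ×ₗ Bool)) (v : V) : mi (insert (toLex (v, true)) U) = insert v (mi U) := by
  ext u; rw [mem_mi, mem_insert, mem_insert, mem_mi]; simp

theorem pr_ins (U : Finset (V ×ₗ Bool)) (v : V) (ε : Bool) : pr (insert (toLex (v, ε)) U) = insert v (pr U) := by
  cases ε
  · rw [pr, pl_ins_f, mi_ins_f, insert_union, pr]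
  · rw [pr, pl_ins_t, mi_ins_t, union_insert, pr]

theorem clq_pr {U : Finset (V ×ₗ Bool)} (h : (oct G).IsClique (U : Set (V ×ₗ Bool))) :
    G.IsClique (pr U : Set V) := by
  intro a ha b hb hab
  rw [mem_coe, mem_pr] at ha hb
  obtain ⟨ε, ha⟩ := ha
  obtain ⟨δ, hb⟩ := hb
  exact h ha hb (fun e => hab (congrArg (fun p => (ofLex p).1) e))

theorem clq_inj {U : Finset (V ×ₗ Bool)} (h : (oct G).IsClique (U : Set (V ×ₗ Bool))) {v : V}
    (h1 : v ∈ pl U) : v ∉ mi U := by
  intro h2
  rw [mem_pl] at h1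
  rw [mem_mi] at h2
  have h3 := h (mem_coe.2 h1) (mem_coe.2 h2) (by simp)
  exact G.loopless.irrefl _ h3

theorem clq_ins {U : Finset (V ×ₗ Bool)} (h : (oct G).IsClique (U : Set (V ×ₗ Bool))) {v : V}
    (hv : v ∉ pr U) (hc : G.IsClique ((insert v (pr U) : Finset V) : Set V)) (ε : Bool) :
    (oct G).IsClique ((insert (toLex (v, ε)) U : Finset (V ×ₗ Bool)) : Set (V ×ₗ Bool)) := by
  rw [coe_insert]
  refine h.insert fun p hp hne => ?_
  have h1 : (ofLex p).1 ∈ pr U := mem_pr.2 ⟨(ofLex p).2, hp⟩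
  have h2 : v ≠ (ofLex p).1 := fun e => hv (e ▸ h1)
  exact hc (by simp) (by rw [coe_insert]; exact Or.inr h1) h2

variable (G) in
open Classical in
/-- the cycle in the deleted join of the octahedralization -/
noncomputable def ZC (c' z : Finset V → ZMod 2) (U W : Finset (V ×ₗ Bool)) : ZMod 2 :=
  if (oct G).IsClique (U : Set (V ×ₗ Bool)) ∧ (oct G).IsClique (W : Set (V ×ₗ Bool)) then
    z (pr U) * z (pr W) * KC G c' (pl U ∪ (mi U \ pl W)) (pl W ∪ (mi W \ pl U))
      ((mi U \ pl W) ∪ (mi W \ pl U))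
  else 0

theorem sum_lex {M : Type} [AddCommMonoid M] (F : V ×ₗ Bool → M) :
    ∑ p, F p = ∑ v : V, (F (toLex (v, false)) + F (toLex (v, true))) := by
  rw [← Fintype.sum_equiv (toLex : V × Bool ≃ V ×ₗ Bool) (fun p => F (toLex p)) F (fun _ => rfl),
    Fintype.sum_prod_type]
  refine sum_congr rfl fun v _ => ?_
  rw [Fintype.sum_bool, add_comm]

variable {c' z : Finset V → ZMod 2}

/-- **the boundary vanishes** -/
theorem ZC_bd (hz0 : ∀ ρ, z ρ ≠ 0 → G.IsClique (ρ : Set V))
    (hz : ∀ ρ : Finset V, ∑ v ∈ ρᶜ, z (insert v ρ) = 0) {U W : Finset (V ×ₗ Bool)} (hd : Disjoint U W) :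
    ∑ p ∈ (U ∪ W)ᶜ, ZC G c' z (insert p U) W = 0 := by
  classical
  by_cases hU : (oct G).IsClique (U : Set (V ×ₗ Bool))
  swap
  · refine sum_eq_zero fun p _ => ?_
    rw [ZC, if_neg]
    rintro ⟨h, _⟩
    exact hU (h.subset (by simp))
  by_cases hW : (oct G).IsClique (W : Set (V ×ₗ Bool))
  swap
  · refine sum_eq_zero fun p _ => ?_
    rw [ZC, if_neg]
    exact fun h => hW h.2
  have hdl : ∀ v ε, toLex (v, ε) ∈ U → toLex (v, ε) ∉ W := fun v ε h1 h2 => disjoint_left.1 hd h1 h2
  obtain ⟨A, hA⟩ : ∃ A, A = pl U ∪ (mi U \ pl W) := ⟨_, rfl⟩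
  obtain ⟨B, hB⟩ : ∃ B, B = pl W ∪ (mi W \ pl U) := ⟨_, rfl⟩
  obtain ⟨M, hM⟩ : ∃ M, M = (mi U \ pl W) ∪ (mi W \ pl U) := ⟨_, rfl⟩
  have hAp : A ⊆ pr U := by
    rw [hA, pr]; exact union_subset_union_right sdiff_subset
  have hBp : B ⊆ pr W := by
    rw [hB, pr]; exact union_subset_union_right sdiff_subset
  have e1 : ∑ p ∈ (U ∪ W)ᶜ, ZC G c' z (insert p U) W =
      ∑ p, if p ∉ U ∪ W then ZC G c' z (insert p U) W else 0 := by
    rw [← sum_filter]
    refine sum_congr ?_ fun _ _ => rfl
    ext p; simp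
  rw [e1, sum_lex]
  have key : ∀ v : V,
      ((if toLex (v, false) ∉ U ∪ W then ZC G c' z (insert (toLex (v, false)) U) W else 0) +
      if toLex (v, true) ∉ U ∪ W then ZC G c' z (insert (toLex (v, true)) U) W else 0) =
      (if v ∈ (pr U)ᶜ then z (insert v (pr U)) else 0) * (z (pr W) * KC G c' A B M) := by
    intro v
    obtain ⟨t, ht⟩ : ∃ t : Bool → ZMod 2, ∀ ε, t ε =
        if toLex (v, ε) ∉ U ∪ W then ZC G c' z (insert (toLex (v, ε)) U) W else 0 := ⟨_, fun _ => rfl⟩
    rw [← ht, ← ht]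
    have hout : ∀ ε, toLex (v, ε) ∈ U ∪ W → t ε = 0 := fun ε h => by
      rw [ht, if_neg (not_not.2 h)]
    have hin : ∀ ε, toLex (v, ε) ∉ U → toLex (v, ε) ∉ W → t ε = ZC G c' z (insert (toLex (v, ε)) U) W :=
      fun ε h h' => by rw [ht, if_pos (by rw [mem_union, not_or]; exact ⟨h, h'⟩)]
    by_cases hvU : v ∈ pr U
    · -- both vertices are excluded
      have h0 : ∀ ε, t ε = 0 := by
        intro ε
        by_cases h : toLex (v, ε) ∈ U ∪ W
        · exact hout ε h
        · rw [ht, if_pos h, ZC, if_neg]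
          rintro ⟨h1, _⟩
          rw [mem_union, not_or] at h
          obtain ⟨δ, hδ⟩ := mem_pr.1 hvU
          have h2 := h1 (mem_coe.2 (mem_insert_self _ _)) (mem_coe.2 (mem_insert_of_mem hδ)) (by
            intro e
            rw [e] at h
            exact h.1 hδ)
          exact G.loopless.irrefl _ h2
      rw [h0, h0, add_zero, if_neg (by simpa using hvU), zero_mul]
    · have hpU : ∀ ε, toLex (v, ε) ∉ U := fun ε h => hvU (mem_pr.2 ⟨ε, h⟩)
      have hplU : v ∉ pl U := fun h => hpU _ (mem_pl.1 h)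
      have hmiU : v ∉ mi U := fun h => hpU _ (mem_mi.1 h)
      have hvc : v ∈ (pr U)ᶜ := mem_compl.2 hvU
      rw [if_pos hvc]
      by_cases hc : G.IsClique ((insert v (pr U) : Finset V) : Set V)
      swap
      · have h0 : ∀ ε, t ε = 0 := by
          intro ε
          by_cases h : toLex (v, ε) ∈ U ∪ W
          · exact hout ε h
          · rw [ht, if_pos h, ZC, if_neg]
            rintro ⟨h1, _⟩
            have h2 := clq_pr h1
            rw [pr_ins] at h2
            exact hc h2
        have h1 : z (insert v (pr U)) = 0 := by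
          by_contra h
          exact hc (hz0 _ h)
        rw [h0, h0, add_zero, h1, zero_mul]
      have hcl : ∀ ε, toLex (v, ε) ∉ W → t ε =
          z (insert v (pr U)) * z (pr W) *
          KC G c' (pl (insert (toLex (v, ε)) U) ∪ (mi (insert (toLex (v, ε)) U) \ pl W))
          (pl W ∪ (mi W \ pl (insert (toLex (v, ε)) U)))
          ((mi (insert (toLex (v, ε)) U) \ pl W) ∪ (mi W \ pl (insert (toLex (v, ε)) U))) := by
        intro ε hε
        rw [hin ε (hpU ε) hε, ZC, if_pos ⟨clq_ins hU hvU hc ε, hW⟩, pr_ins]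
      have ha1 : insert v (pl U) ∪ (mi U \ pl W) = insert v A := by rw [insert_union, hA]
      by_cases hp : v ∈ pl W
      · -- only the vertex with the sign `-`
        have hm : v ∉ mi W := clq_inj hW hp
        have q1 : t false = 0 := hout _ (mem_union_right _ (mem_pl.1 hp))
        have q2 := hcl true (fun h => hm (mem_mi.2 h))
        rw [pl_ins_t, mi_ins_t] at q2
        have h1 : insert v (mi U) \ pl W = mi U \ pl W := insert_sdiff_of_mem _ hp
        rw [h1, ← hA, ← hB, ← hM, mul_assoc] at q2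
        rw [q1, q2, zero_add]
      · by_cases hm : v ∈ mi W
        · have q2 : t true = 0 := hout _ (mem_union_right _ (mem_mi.1 hm))
          have q1 := hcl false (fun h => hp (mem_pl.2 h))
          rw [pl_ins_f, mi_ins_f] at q1
          have h2 : pl W ∪ (mi W \ insert v (pl U)) = B.erase v := by
            rw [hB]; ext x
            simp only [mem_union, mem_sdiff, mem_insert, mem_erase]
            constructor
            · rintro (h | ⟨h, h'⟩)
              · exact ⟨fun e => hp (e ▸ h), Or.inl h⟩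
              · exact ⟨fun e => h' (Or.inl e), Or.inr ⟨h, fun h3 => h' (Or.inr h3)⟩⟩
            · rintro ⟨h, h' | ⟨h', h''⟩⟩
              · exact Or.inl h'
              · exact Or.inr ⟨h', fun h3 => h3.elim h h''⟩
          have h3 : (mi U \ pl W) ∪ (mi W \ insert v (pl U)) = M.erase v := by
            rw [hM]; ext x
            simp only [mem_union, mem_sdiff, mem_insert, mem_erase]
            constructor
            · rintro (⟨h, h'⟩ | ⟨h, h'⟩)
              · exact ⟨fun e => hmiU (e ▸ h), Or.inl ⟨h, h'⟩⟩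
              · exact ⟨fun e => h' (Or.inl e), Or.inr ⟨h, fun h3 => h' (Or.inr h3)⟩⟩
            · rintro ⟨h, h' | ⟨h', h''⟩⟩
              · exact Or.inl h'
              · exact Or.inr ⟨h', fun h3 => h3.elim h h''⟩
          have h4 : KC G c' A B M = KC G c' (insert v A) (B.erase v) (M.erase v) := by
            refine KC_move (fun h => hvU (hAp h)) ?_ ?_ ?_
            · rw [hB]; exact mem_union_right _ (mem_sdiff.2 ⟨hm, hplU⟩)
            · rw [hM]; exact mem_union_right _ (mem_sdiff.2 ⟨hm, hplU⟩)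
            · intro u hu hne
              rcases mem_union.1 hu with h | h
              · exact hc (by simp) (by rw [coe_insert]; exact Or.inr (hAp h)) hne.symm
              · exact clq_pr hW (mem_coe.2 (mem_pr.2 ⟨_, mem_mi.1 hm⟩)) (mem_coe.2 (hBp h)) hne.symm
          rw [ha1, h2, h3, ← h4, mul_assoc] at q1
          rw [q1, q2, add_zero]
        · have q1 := hcl false (fun h => hp (mem_pl.2 h))
          have q2 := hcl true (fun h => hm (mem_mi.2 h))
          rw [pl_ins_f, mi_ins_f] at q1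
          rw [pl_ins_t, mi_ins_t] at q2
          have h2 : mi W \ insert v (pl U) = mi W \ pl U := by
            ext x
            simp only [mem_sdiff, mem_insert]
            constructor
            · rintro ⟨h, h'⟩; exact ⟨h, fun h3 => h' (Or.inr h3)⟩
            · rintro ⟨h, h'⟩; exact ⟨h, fun h3 => h3.elim (fun e => hm (e ▸ h)) h'⟩
          have h3 : insert v (mi U) \ pl W = insert v (mi U \ pl W) := insert_sdiff_of_notMem _ hp
          have h4 : pl U ∪ insert v (mi U \ pl W) = insert v A := by rw [union_insert, hA]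
          have h5 : insert v (mi U \ pl W) ∪ (mi W \ pl U) = insert v M := by rw [insert_union, hM]
          rw [ha1, h2, ← hB, ← hM] at q1
          rw [h3, h4, h5, ← hB] at q2
          rw [q1, q2, ← mul_add, KC_new, mul_assoc]
          · exact fun h => hvU (hAp h)
          · intro h
            rcases mem_union.1 (hBp h) with h | h
            · exact hp h
            · exact hm h
  rw [sum_congr rfl fun v _ => key v, ← sum_mul]
  have h2 : ∑ v : V, (if v ∈ (pr U)ᶜ then z (insert v (pr U)) else 0) = 0 := by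
    refine Eq.trans ?_ (hz (pr U))
    rw [← sum_filter]
    refine sum_congr ?_ fun _ _ => rfl
    ext v; simp
  rw [h2, zero_mul]

/-- symmetry (on disjoint sets) -/
theorem ZC_symm (hc : ∀ π : Finset V, G.IsClique (π : Set V) → ∑ ρ ∈ π.powerset, c' ρ = c' π)
    {U W : Finset (V ×ₗ Bool)} (hd : Disjoint U W) : ZC G c' z U W = ZC G c' z W U := by
  classical
  unfold ZC
  by_cases h : (oct G).IsClique (U : Set (V ×ₗ Bool)) ∧ (oct G).IsClique (W : Set (V ×ₗ Bool))
  · rw [if_pos h, if_pos ⟨h.2, h.1⟩, KC_symm, mul_comm (z (pr U)), union_comm (mi U \ pl W) (mi W \ pl U)]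
    · rw [disjoint_left]
      intro v h1 h2
      have hdl : ∀ ε, toLex (v, ε) ∈ U → toLex (v, ε) ∉ W := fun ε h1 h2 => disjoint_left.1 hd h1 h2
      rcases mem_union.1 h1 with h1 | h1 <;> rcases mem_union.1 h2 with h2 | h2
      · exact hdl _ (mem_pl.1 h1) (mem_pl.1 h2)
      · exact (mem_sdiff.1 h2).2 h1
      · exact (mem_sdiff.1 h1).2 h2
      · exact hdl _ (mem_mi.1 (mem_sdiff.1 h1).1) (mem_mi.1 (mem_sdiff.1 h2).1)
    · exact hc
  · rw [if_neg h, if_neg (fun h' => h ⟨h'.2, h'.1⟩)]

end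

end Pool.Agent.V5helper75.VO
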