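import Pool.Agent.V5helper75.VO.Obst
import Pool.Agent.TH652.JoinDef

/-!
# Project VO: the obstruction of a join
-/

set_option autoImplicit false
set_option linter.unusedSectionVars false

namespace Pool.Agent.V5helper75.VO

open Finset Pool.Agent.R782.Bal Pool.Agent.N504.RS
open Pool.Agent.TH652.Join (join)

/-- the join, on the ordered sum -/
def ljo {U₁ U₂ : Type} (G : SimpleGraph U₁) (H : SimpleGraph U₂) : SimpleGraph (U₁ ⊕ₗ U₂) where
  Adj x y := (join G H).Adj (ofLex x) (ofLex y)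
  symm := ⟨fun _ _ h => SimpleGraph.Adj.symm h⟩
  loopless := ⟨fun _ h => (join G H).loopless.irrefl _ h⟩

section

variable {U₁ U₂ : Type} [Fintype U₁] [LinearOrder U₁] [Fintype U₂] [LinearOrder U₂]

/-- left part -/
def lft (σ : Finset (U₁ ⊕ₗ U₂)) : Finset U₁ := univ.filter (fun a => toLex (Sum.inl a) ∈ σ)

/-- right part -/
def rgt (σ : Finset (U₁ ⊕ₗ U₂)) : Finset U₂ := univ.filter (fun a => toLex (Sum.inr a) ∈ σ)

theorem mem_lft {σ : Finset (U₁ ⊕ₗ U₂)} {a : U₁} : a ∈ lft σ ↔ toLex (Sum.inl a) ∈ σ := by simp [lft]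

theorem mem_rgt {σ : Finset (U₁ ⊕ₗ U₂)} {a : U₂} : a ∈ rgt σ ↔ toLex (Sum.inr a) ∈ σ := by simp [rgt]

theorem sum_lexs {M : Type} [AddCommMonoid M] (F : U₁ ⊕ₗ U₂ → M) :
    ∑ p, F p = ∑ a, F (toLex (Sum.inl a)) + ∑ b, F (toLex (Sum.inr b)) := by
  rw [← Fintype.sum_equiv (toLex : U₁ ⊕ U₂ ≃ U₁ ⊕ₗ U₂) (fun p => F (toLex p)) F (fun _ => rfl),
    Fintype.sum_sum_type]

theorem ext_lr {σ τ : Finset (U₁ ⊕ₗ U₂)} (h1 : lft σ = lft τ) (h2 : rgt σ = rgt τ) : σ = τ := by
  ext p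
  obtain ⟨p, rfl⟩ := toLex.surjective p
  cases p with
  | inl a => rw [← mem_lft, ← mem_lft, h1]
  | inr b => rw [← mem_rgt, ← mem_rgt, h2]

open Classical in
/-- the union -/
noncomputable def mk (A : Finset U₁) (B : Finset U₂) : Finset (U₁ ⊕ₗ U₂) :=
  univ.filter (fun p => Sum.elim (fun a => a ∈ A) (fun b => b ∈ B) (ofLex p))

theorem lft_mk (A : Finset U₁) (B : Finset U₂) : lft (mk A B) = A := by
  classical
  ext a; rw [mem_lft, mk, mem_filter]; simp

theorem rgt_mk (A : Finset U₁) (B : Finset U₂) : rgt (mk A B) = B := by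
  classical
  ext a; rw [mem_rgt, mk, mem_filter]; simp

theorem card_lr (σ : Finset (U₁ ⊕ₗ U₂)) : σ.card = (lft σ).card + (rgt σ).card := by
  classical
  have h1 : σ.card = ∑ w : U₁ ⊕ₗ U₂, if w ∈ σ then 1 else 0 := by
    rw [← card_filter]
    congr 1
    ext w; simp
  rw [h1, sum_lexs, ← card_filter, ← card_filter]
  rfl

theorem lft_evp (σ : Finset (U₁ ⊕ₗ U₂)) : lft (evp σ) = evp (lft σ) ∧ lft (odp σ) = odp (lft σ) := by
  have h1 : ∀ a : U₁, (σ.filter (fun x => x < toLex (Sum.inl a))).card = ((lft σ).filter (fun x => x < a)).card := by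
    intro a
    rw [card_lr]
    have h2 : lft (σ.filter (fun x => x < toLex (Sum.inl a))) = (lft σ).filter (fun x => x < a) := by
      ext b
      rw [mem_lft, mem_filter, mem_filter, mem_lft, Sum.Lex.inl_lt_inl_iff]
    have h3 : rgt (σ.filter (fun x => x < toLex (Sum.inl a))) = ∅ := by
      ext b
      rw [mem_rgt, mem_filter]
      simp
    rw [h2, h3, card_empty, add_zero]
  constructor
  · ext a
    rw [mem_lft, evp, evp, mem_filter, mem_filter, h1, mem_lft]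
  · ext a
    rw [mem_lft, odp, odp, mem_filter, mem_filter, h1, mem_lft]

theorem rgt_evp {σ : Finset (U₁ ⊕ₗ U₂)} (he : Even (lft σ).card) :
    rgt (evp σ) = evp (rgt σ) ∧ rgt (odp σ) = odp (rgt σ) := by
  have h1 : ∀ a : U₂, (σ.filter (fun x => x < toLex (Sum.inr a))).card =
      (lft σ).card + ((rgt σ).filter (fun x => x < a)).card := by
    intro a
    rw [card_lr]
    have h2 : lft (σ.filter (fun x => x < toLex (Sum.inr a))) = lft σ := by
      ext b
      rw [mem_lft, mem_filter, mem_lft]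
      simp
    have h3 : rgt (σ.filter (fun x => x < toLex (Sum.inr a))) = (rgt σ).filter (fun x => x < a) := by
      ext b
      rw [mem_rgt, mem_filter, mem_filter, mem_rgt, Sum.Lex.inr_lt_inr_iff]
    rw [h2, h3]
  constructor
  · ext a
    rw [mem_rgt, evp, evp, mem_filter, mem_filter, h1, mem_rgt, Nat.even_add]
    tauto
  · ext a
    rw [mem_rgt, odp, odp, mem_filter, mem_filter, h1, mem_rgt, Nat.even_add]
    tauto

theorem ins_l [DecidableEq (U₁ ⊕ₗ U₂)] (σ : Finset (U₁ ⊕ₗ U₂)) (a : U₁) : lft (insert (toLex (Sum.inl a)) σ) = insert a (lft σ) ∧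
    rgt (insert (toLex (Sum.inl a)) σ) = rgt σ := by
  constructor
  · ext x; rw [mem_lft, mem_insert, mem_insert, mem_lft]; simp
  · ext x; rw [mem_rgt, mem_insert, mem_rgt]; simp

theorem ins_r [DecidableEq (U₁ ⊕ₗ U₂)] (σ : Finset (U₁ ⊕ₗ U₂)) (a : U₂) : rgt (insert (toLex (Sum.inr a)) σ) = insert a (rgt σ) ∧
    lft (insert (toLex (Sum.inr a)) σ) = lft σ := by
  constructor
  · ext x; rw [mem_rgt, mem_insert, mem_insert, mem_rgt]; simp
  · ext x; rw [mem_lft, mem_insert, mem_lft]; simp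

theorem sum_cmpl_lr {M : Type} [AddCommMonoid M] (ρ τ s : Finset (U₁ ⊕ₗ U₂))
    (hs : ∀ x, x ∈ s ↔ x ∉ ρ ∧ x ∉ τ) (F : U₁ ⊕ₗ U₂ → M) :
    ∑ v ∈ s, F v = ∑ x ∈ (lft ρ ∪ lft τ)ᶜ, F (toLex (Sum.inl x)) +
      ∑ x ∈ (rgt ρ ∪ rgt τ)ᶜ, F (toLex (Sum.inr x)) := by
  rw [sum_ind, sum_lexs, sum_ind (lft ρ ∪ lft τ)ᶜ, sum_ind (rgt ρ ∪ rgt τ)ᶜ]
  refine congrArg₂ (· + ·) (sum_congr rfl fun x _ => if_congr ?_ rfl rfl)
    (sum_congr rfl fun x _ => if_congr ?_ rfl rfl)
  · rw [hs, mem_compl, mem_union, mem_lft, mem_lft, not_or]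
  · rw [hs, mem_compl, mem_union, mem_rgt, mem_rgt, not_or]

variable {G : SimpleGraph U₁} {H : SimpleGraph U₂}

theorem clq_join {σ : Finset (U₁ ⊕ₗ U₂)} (h1 : G.IsClique (lft σ : Set U₁)) (h2 : H.IsClique (rgt σ : Set U₂)) :
    (ljo G H).IsClique (σ : Set (U₁ ⊕ₗ U₂)) := by
  intro p hp q hq hne
  obtain ⟨p, rfl⟩ := toLex.surjective p
  obtain ⟨q, rfl⟩ := toLex.surjective q
  cases p with
  | inl a =>
    cases q with
    | inl b => exact h1 (mem_coe.2 (mem_lft.2 hp)) (mem_coe.2 (mem_lft.2 hq)) fun e => hne (by rw [e])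
    | inr b => trivial
  | inr a =>
    cases q with
    | inl b => trivial
    | inr b => exact h2 (mem_coe.2 (mem_rgt.2 hp)) (mem_coe.2 (mem_rgt.2 hq)) fun e => hne (by rw [e])

theorem ob_join {a b : ℕ} {Z₁ : Finset U₁ → Finset U₁ → ZMod 2} {Z₂ : Finset U₂ → Finset U₂ → ZMod 2}
    (h1 : Ob G (2 * a) Z₁) (h2 : Ob H (2 * b) Z₂) :
    Ob (ljo G H) (2 * (a + b)) (fun σ τ => if (lft σ).card + (lft τ).card = 2 * a then
      Z₁ (lft σ) (lft τ) * Z₂ (rgt σ) (rgt τ) else 0) := by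
  classical
  refine ⟨?_, ?_, ?_, ?_⟩
  · intro σ τ
    rw [h1.symm, h2.symm, add_comm (lft σ).card]
  · intro σ τ hne
    have h3 : Z₁ (lft σ) (lft τ) * Z₂ (rgt σ) (rgt τ) ≠ 0 := by
      intro h; apply hne; rw [h]; split_ifs <;> rfl
    obtain ⟨c1, c2⟩ := h1.supp _ _ (left_ne_zero_of_mul h3)
    obtain ⟨d1, d2⟩ := h2.supp _ _ (right_ne_zero_of_mul h3)
    exact ⟨clq_join c1 d1, clq_join c2 d2⟩
  · intro ρ τ hd hc
    have hdl : Disjoint (lft ρ) (lft τ) := by
      rw [disjoint_left]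
      intro x hx hy
      exact disjoint_left.1 hd (mem_lft.1 hx) (mem_lft.1 hy)
    have hdr : Disjoint (rgt ρ) (rgt τ) := by
      rw [disjoint_left]
      intro x hx hy
      exact disjoint_left.1 hd (mem_rgt.1 hx) (mem_rgt.1 hy)
    rw [sum_cmpl_lr ρ τ _ (by intro x; rw [mem_compl, mem_union, not_or])]
    simp only [(ins_l _ _).1, (ins_l _ _).2, (ins_r _ _).1, (ins_r _ _).2]
    rw [card_lr ρ, card_lr τ] at hc
    have p1 : ∑ x ∈ (lft ρ ∪ lft τ)ᶜ, ((if (insert x (lft ρ)).card + (lft τ).card = 2 * a then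
        Z₁ (insert x (lft ρ)) (lft τ) * Z₂ (rgt ρ) (rgt τ) else 0) +
        if (lft ρ).card + (insert x (lft τ)).card = 2 * a then
        Z₁ (lft ρ) (insert x (lft τ)) * Z₂ (rgt ρ) (rgt τ) else 0) = 0 := by
      by_cases hk : (lft ρ).card + (lft τ).card + 1 = 2 * a
      · have h3 := h1.cyc _ _ hdl hk
        rw [← zero_mul (Z₂ (rgt ρ) (rgt τ)), ← h3, sum_mul]
        refine sum_congr rfl fun x hx => ?_
        rw [mem_compl, mem_union, not_or] at hx
        rw [card_insert_of_notMem hx.1, card_insert_of_notMem hx.2, if_pos (by omega), if_pos (by omega), add_mul]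
      · refine sum_eq_zero fun x hx => ?_
        rw [mem_compl, mem_union, not_or] at hx
        rw [card_insert_of_notMem hx.1, card_insert_of_notMem hx.2, if_neg (by omega), if_neg (by omega), add_zero]
    have p2 : ∑ x ∈ (rgt ρ ∪ rgt τ)ᶜ, ((if (lft ρ).card + (lft τ).card = 2 * a then
        Z₁ (lft ρ) (lft τ) * Z₂ (insert x (rgt ρ)) (rgt τ) else 0) +
        if (lft ρ).card + (lft τ).card = 2 * a then
        Z₁ (lft ρ) (lft τ) * Z₂ (rgt ρ) (insert x (rgt τ)) else 0) = 0 := by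
      by_cases hk : (lft ρ).card + (lft τ).card = 2 * a
      · have h3 := h2.cyc _ _ hdr (by omega)
        rw [← mul_zero (Z₁ (lft ρ) (lft τ)), ← h3, mul_sum]
        refine sum_congr rfl fun x _ => ?_
        rw [if_pos hk, if_pos hk, mul_add]
      · refine sum_eq_zero fun x _ => ?_
        rw [if_neg hk, if_neg hk, add_zero]
    rw [p1, p2, add_zero]
  · have h3 : ∑ W ∈ powersetCard (2 * (a + b)) (univ : Finset (U₁ ⊕ₗ U₂)),
        (if (lft (evp W)).card + (lft (odp W)).card = 2 * a then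
        Z₁ (lft (evp W)) (lft (odp W)) * Z₂ (rgt (evp W)) (rgt (odp W)) else 0) =
        ∑ W ∈ (powersetCard (2 * (a + b)) (univ : Finset (U₁ ⊕ₗ U₂))).filter (fun W => (lft W).card = 2 * a),
        Z₁ (evp (lft W)) (odp (lft W)) * Z₂ (evp (rgt W)) (odp (rgt W)) := by
      rw [sum_filter]
      refine sum_congr rfl fun W _ => ?_
      rw [(lft_evp W).1, (lft_evp W).2]
      have h4 : (evp (lft W)).card + (odp (lft W)).card = (lft W).card :=
        card_filter_add_card_filter_not _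
      rw [h4]
      split_ifs with h5
      · rw [(rgt_evp (by rw [h5]; exact even_two_mul a)).1, (rgt_evp (by rw [h5]; exact even_two_mul a)).2]
      · rfl
    rw [h3]
    have h6 : ∑ x ∈ (powersetCard (2 * a) (univ : Finset U₁)) ×ˢ (powersetCard (2 * b) (univ : Finset U₂)),
        Z₁ (evp x.1) (odp x.1) * Z₂ (evp x.2) (odp x.2) = 1 := by
      rw [sum_product]
      simp only [← mul_sum, h2.ev, mul_one]
      exact h1.ev
    rw [← h6]
    refine sum_nbij' (fun W => (lft W, rgt W)) (fun x => mk x.1 x.2) ?_ ?_ ?_ ?_ ?_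
    · intro W hW
      rw [mem_filter, mem_powersetCard, card_lr] at hW
      rw [mem_product, mem_powersetCard, mem_powersetCard]
      exact ⟨⟨subset_univ _, hW.2⟩, subset_univ _, by have := hW.1.2; have := hW.2; dsimp only; omega⟩
    · intro x hx
      rw [mem_product, mem_powersetCard, mem_powersetCard] at hx
      rw [mem_filter, mem_powersetCard, card_lr, lft_mk, rgt_mk]
      exact ⟨⟨subset_univ _, by rw [hx.1.2, hx.2.2]; ring⟩, hx.1.2⟩
    · intro W _
      exact ext_lr (lft_mk _ _) (rgt_mk _ _)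
    · intro x _
      rw [lft_mk, rgt_mk]
    · intro W _; rfl

end

/-- **Joins.** -/
theorem not_obs_join {U₁ U₂ : Type} [Finite U₁] [Finite U₂] {G : SimpleGraph U₁} {H : SimpleGraph U₂} {a b : ℕ}
    (h1 : ¬ Obs G (2 * a)) (h2 : ¬ Obs H (2 * b)) : ¬ Obs (join G H) (2 * (a + b)) := by
  obtain ⟨_, _, Z₁, hZ₁⟩ := exists_ob h1
  obtain ⟨_, _, Z₂, hZ₂⟩ := exists_ob h2
  intro h3
  refine (ob_join hZ₁ hZ₂).not_obs ?_
  exact obs_mono h3 ⟨fun x => ofLex x, fun _ _ h => h⟩ fun x y h => h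

end Pool.Agent.V5helper75.VO
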