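import Pool.Agent.V5helper75.VO.OctL
import Pool.Agent.V5helper75.VO.Join

/-!
# Project VO: detection of the `ℓ²`-homology by the van Kampen obstruction
-/

set_option autoImplicit false
set_option linter.unusedSectionVars false

namespace Pool.Agent.V5helper75.VO

open Finset Pool.Agent.W907.SG Pool.Agent.W907.SM Pool.Agent.R703.MO Pool.Agent.R782.Bal Pool.Agent.N504.RS
open Pool.Agent.Y131.KS (vk_of_vk2)
open Pool.Agent.TH652.Join (join ljoin)
open Pool.Agent.TH652.Glue (lglue)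
open Pool.Agent.TH652.Above (HSph lv_img lv_set lv_sub lv_univ)

/-- the `ℓ²`-homology is detected by the van Kampen obstruction -/
def Det {V : Type} (G : SimpleGraph V) : Prop := ∀ i, Obs G (2 * i) → LV G i

theorem obs_le {V : Type} {G : SimpleGraph V} {D D' : ℕ} (h : Obs G D) (hD : D ≤ D') : Obs G D' := by
  intro n e
  exact vk_of_vk2 (vk2_le (clF_cx G e) hD (h n e (ZMod 2)))

theorem det_iso {V U : Type} [Finite V] {G : SimpleGraph V} {H : SimpleGraph U} (e : Nonempty (G ≃g H))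
    (h : Det G) : Det H := by
  intro i hi
  obtain ⟨e⟩ := e
  have : Finite U := Finite.of_equiv V e.toEquiv
  exact liso _ _ _ _ i ⟨e⟩ (h i (obs_mono hi e.toEquiv.toEmbedding fun a b hab => e.map_adj_iff.2 hab))

theorem det_join {V U : Type} [Finite V] [Finite U] {G : SimpleGraph V} {H : SimpleGraph U} (h1 : Det G)
    (h2 : Det H) : Det (join G H) := by
  intro i hi
  refine ljoin G H i fun p q hpq => ?_
  by_contra h
  rw [not_or] at h
  subst hpq
  exact not_obs_join (fun h3 => h.1 (h1 p h3)) (fun h3 => h.2 (h2 q h3)) hi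

/-- gluing, relative form -/
theorem lv_glue {V : Type} [Finite V] (G : SimpleGraph V) (A B : Set V)
    (hno : ∀ a ∈ A, a ∉ B → ∀ b ∈ B, b ∉ A → ¬ G.Adj a b) (i : ℕ)
    (h1 : LV (G.induce A) i) (h2 : LV (G.induce B) i) (h3 : ∀ j, i = j + 1 → LV (G.induce (A ∩ B)) j) :
    LV (G.induce (A ∪ B)) i := by
  refine lglue (G.induce (A ∪ B)) {x | x.1 ∈ A} {x | x.1 ∈ B} ?_ ?_ i ?_ ?_ ?_
  · ext x
    constructor
    · intro _; trivial
    · intro _; exact x.2
  · intro a ha hb b hb' ha'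
    exact hno a.1 ha hb b.1 hb' ha'
  · rw [lv_sub]
    refine lv_set ?_ h1
    ext x
    constructor
    · rintro ⟨y, hy, rfl⟩; exact hy
    · intro hx; exact ⟨⟨x, Or.inl hx⟩, hx, rfl⟩
  · rw [lv_sub]
    refine lv_set ?_ h2
    ext x
    constructor
    · rintro ⟨y, hy, rfl⟩; exact hy
    · intro hx; exact ⟨⟨x, Or.inr hx⟩, hx, rfl⟩
  · intro j hj
    rw [lv_sub]
    refine lv_set ?_ (h3 j hj)
    ext x
    constructor
    · rintro ⟨y, hy, rfl⟩; exact hy
    · intro hx; exact ⟨⟨x, Or.inl hx.1⟩, hx, rfl⟩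

theorem det_glue {V : Type} [Finite V] (G : SimpleGraph V) (A B : Set V)
    (hno : ∀ a ∈ A, a ∉ B → ∀ b ∈ B, b ∉ A → ¬ G.Adj a b)
    (h1 : Det (G.induce A)) (h2 : Det (G.induce B)) (h3 : ∀ j, LV (G.induce (A ∩ B)) j) :
    Det (G.induce (A ∪ B)) := by
  intro i hi
  refine lv_glue G A B hno i (h1 i ?_) (h2 i ?_) fun j _ => h3 j
  · exact obs_mono hi ⟨fun x => ⟨x.1, Or.inl x.2⟩, fun x y h => Subtype.ext (Subtype.mk.inj h)⟩ fun a b h => h
  · exact obs_mono hi ⟨fun x => ⟨x.1, Or.inr x.2⟩, fun x y h => Subtype.ext (Subtype.mk.inj h)⟩ fun a b h => h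

/-- octahedralizations -/
theorem det_oct {V : Type} [Fintype V] [LinearOrder V] (G : SimpleGraph V) : Det (oct G) := fun _ hi => lv_oct hi

end Pool.Agent.V5helper75.VO
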