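import Pool.Agent.V5helper75.VO.Base

/-!
# Project VO: gluing along detected subgraphs
-/

set_option autoImplicit false
set_option linter.unusedSectionVars false

namespace Pool.Agent.V5helper75.VO

open Finset Pool.Agent.W907.SG Pool.Agent.W907.SM Pool.Agent.R703.MO Pool.Agent.R782.Bal Pool.Agent.N504.RS
open Pool.Agent.W555.KS
open Pool.Agent.TH652.Join (join ljoin)

/-- three points do not embed in the sphere of dimension `0` -/
theorem not_obs_three : ¬ Obs (⊥ : SimpleGraph (Fin 3)) 2 := by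
  classical
  intro h
  have h1 := h 3 (Equiv.refl _) (ZMod 2) (fun σ τ => if σ.card = 1 ∧ τ.card = 1 ∧ σ ≠ τ then 1 else 0) ?_ ?_ ?_
  · revert h1
    decide
  · intro σ τ
    by_cases h1 : σ.card = 1 ∧ τ.card = 1 ∧ σ ≠ τ
    · rw [if_pos h1, if_pos ⟨h1.2.1, h1.1, h1.2.2.symm⟩]
    · rw [if_neg h1, if_neg fun h2 => h1 ⟨h2.2.1, h2.1, h2.2.2.symm⟩]
  · intro σ τ hne
    have h1 : σ.card = 1 ∧ τ.card = 1 ∧ σ ≠ τ := by
      by_contra h2
      exact hne (if_neg h2)
    obtain ⟨a, rfl⟩ := card_eq_one.1 h1.1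
    obtain ⟨b, rfl⟩ := card_eq_one.1 h1.2.1
    rw [mem_clF, mem_clF]
    simp
  · decide

/-- a set with three vertices or an edge does not embed in the sphere of dimension `0` -/
theorem not_obs_set {V : Type} [Finite V] {G : SimpleGraph V} {P : Finset V}
    (hP : 3 ≤ P.card ∨ ∃ a ∈ P, ∃ b ∈ P, G.Adj a b) : ¬ Obs (G.induce (P : Set V)) 2 := by
  classical
  intro h
  rcases hP with hP | ⟨a, ha, b, hb, hab⟩
  · obtain ⟨Q, hQ, hQ3⟩ := exists_subset_card_eq hP
    have e := (Finset.equivFinOfCardEq hQ3).symm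
    exact not_obs_three (obs_mono h ⟨fun i => (⟨(e i).1, hQ (e i).2⟩ : (P : Set V)), fun i j hij =>
      e.injective (Subtype.ext (Subtype.mk.inj hij))⟩ fun a b hab => absurd hab (by simp))
  · have h1 := obs_clique h {⟨a, ha⟩, ⟨b, hb⟩} (by
      intro x hx y hy hxy
      simp only [coe_insert, coe_singleton, Set.mem_insert_iff, Set.mem_singleton_iff] at hx hy
      rcases hx with rfl | rfl <;> rcases hy with rfl | rfl
      · exact absurd rfl hxy
      · exact hab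
      · exact hab.symm
      · exact absurd rfl hxy)
    rw [card_pair (fun h2 => G.ne_of_adj hab (congrArg Subtype.val h2))] at h1
    exact absurd h1 (lt_irrefl _)

theorem det_glue3 {V : Type} [Finite V] (G : SimpleGraph V) (A B : Set V)
    (hno : ∀ a ∈ A, a ∉ B → ∀ b ∈ B, b ∉ A → ¬ G.Adj a b)
    (h1 : Det (G.induce A)) (h2 : Det (G.induce B)) (h3 : Det (G.induce (A ∩ B))) (P : Finset V)
    (hPu : (P : Set V) ⊆ A ∪ B)
    (hP : 3 ≤ P.card ∨ ∃ a ∈ P, ∃ b ∈ P, G.Adj a b) (hPI : ∀ p ∈ P, ∀ x ∈ A ∩ B, G.Adj p x) :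
    Det (G.induce (A ∪ B)) := by
  intro i hi
  refine lv_glue G A B hno i (h1 i ?_) (h2 i ?_) fun j hj => ?_
  · exact obs_mono hi ⟨fun x => ⟨x.1, Or.inl x.2⟩, fun x y h => Subtype.ext (Subtype.mk.inj h)⟩ fun a b h => h
  · exact obs_mono hi ⟨fun x => ⟨x.1, Or.inr x.2⟩, fun x y h => Subtype.ext (Subtype.mk.inj h)⟩ fun a b h => h
  · by_contra h4
    subst hj
    have h5 : ¬ Obs (join (G.induce (A ∩ B)) (G.induce (P : Set V))) (2 * (j + 1)) :=
      not_obs_join (fun h6 => h4 (h3 j h6)) (not_obs_set hP)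
    refine h5 (obs_mono hi ⟨fun x => match x with
      | Sum.inl y => ⟨y.1, Or.inl y.2.1⟩
      | Sum.inr p => ⟨p.1, hPu p.2⟩, ?_⟩ ?_)
    · rintro (x | x) (y | y) hxy
      · exact congrArg _ (Subtype.ext (Subtype.mk.inj hxy))
      · have h6 : x.1 = y.1 := Subtype.mk.inj hxy
        exact absurd h6.symm (G.ne_of_adj (hPI y.1 y.2 x.1 x.2))
      · have h6 : x.1 = y.1 := Subtype.mk.inj hxy
        exact absurd h6 (G.ne_of_adj (hPI x.1 x.2 y.1 y.2))
      · exact congrArg _ (Subtype.ext (Subtype.mk.inj hxy))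
    · rintro (x | x) (y | y) hxy
      · exact hxy
      · exact (hPI y.1 y.2 x.1 x.2).symm
      · exact hPI x.1 x.2 y.1 y.2
      · exact hxy

/-- gluing of two sets covering all the vertices -/
theorem det_union {V : Type} [Finite V] (G : SimpleGraph V) (A B : Set V) (hAB : A ∪ B = Set.univ)
    (hno : ∀ a ∈ A, a ∉ B → ∀ b ∈ B, b ∉ A → ¬ G.Adj a b)
    (h1 : Det (G.induce A)) (h2 : Det (G.induce B))
    (h3 : (∀ j, LV (G.induce (A ∩ B)) j) ∨ (Det (G.induce (A ∩ B)) ∧ ∃ P : Finset V,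
      (3 ≤ P.card ∨ ∃ a ∈ P, ∃ b ∈ P, G.Adj a b) ∧ ∀ p ∈ P, ∀ x ∈ A ∩ B, G.Adj p x)) : Det G := by
  have h4 : Det (G.induce (A ∪ B)) := by
    rcases h3 with h3 | ⟨h3, P, hP, hPI⟩
    · exact det_glue G A B hno h1 h2 h3
    · exact det_glue3 G A B hno h1 h2 h3 P (by rw [hAB]; exact Set.subset_univ _) hP hPI
  rw [hAB] at h4
  exact det_iso ⟨SimpleGraph.induceUnivIso G⟩ h4

end Pool.Agent.V5helper75.VO
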