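import Pool.Agent.V5helper75.VO.Det

/-!
# Project VO: basic examples of detection
-/

set_option autoImplicit false
set_option linter.unusedSectionVars false

namespace Pool.Agent.V5helper75.VO

open Finset Pool.Agent.W907.SG Pool.Agent.W907.SM Pool.Agent.R703.MO Pool.Agent.R782.Bal Pool.Agent.N504.RS

theorem det_one {V : Type} [Finite V] {G : SimpleGraph V} (h : Obs G 2) : LV G 1 := by
  intro _ _
  have h1 : ∀ u w, ¬ G.Adj u w := by
    intro u w huw
    have h2 := obs_clique h {u, w} (by
      intro a ha b hb hab
      simp only [coe_insert, coe_singleton, Set.mem_insert_iff, Set.mem_singleton_iff] at ha hb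
      rcases ha with rfl | rfl <;> rcases hb with rfl | rfl
      · exact absurd rfl hab
      · exact huw
      · exact huw.symm
      · exact absurd rfl hab)
    rw [card_pair (G.ne_of_adj huw)] at h2
    exact absurd h2 (lt_irrefl _)
  exact l2_top (m := 1) (col := fun _ => 0) (fun u w huw => absurd huw (h1 u w)) h 1 le_rfl

/-- If `G` is coloured by `m` colours then it is enough to know the vanishing in the degrees between half the clique
number and `m`. -/
theorem det_base {V : Type} [Finite V] {G : SimpleGraph V} {m : ℕ} (col : V → Fin m)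
    (hc : ∀ u w, G.Adj u w → col u ≠ col w)
    (h : ∀ i, 2 ≤ i → i < m → (∀ Q : Finset V, G.IsClique (Q : Set V) → Q.card < 2 * i) →
      ∀ [Fintype V] [LinearOrder V], L2Van G i) : Det G := by
  intro i hi
  rcases Nat.lt_or_ge i 2 with h1 | h1
  · rcases Nat.eq_zero_or_pos i with rfl | h2
    · exact absurd rfl (obs_pos hi)
    · obtain rfl : i = 1 := by omega
      exact det_one hi
  · rcases Nat.lt_or_ge i m with h2 | h2
    · intro _ _
      exact h i h1 h2 (fun Q hQ => obs_clique hi Q hQ)
    · intro _ _
      refine l2_top (m := i) (col := fun v => Fin.castLE h2 (col v)) (fun u w huw h3 => hc u w huw ?_) hi i le_rfl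
      exact Fin.castLE_injective h2 h3

end Pool.Agent.V5helper75.VO
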