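import Pool.Agent.V5helper75.VO.Cyc

/-!
# Project VO: the evaluation of the obstruction on the cycle
-/

set_option autoImplicit false
set_option linter.unusedSectionVars false

namespace Pool.Agent.V5helper75.VO

open Finset

/-- elements of `U` of even rank -/
def evp {α : Type} [LinearOrder α] (U : Finset α) : Finset α :=
  U.filter (fun u => Even (U.filter (fun w => w < u)).card)

/-- elements of `U` of odd rank -/
def odp {α : Type} [LinearOrder α] (U : Finset α) : Finset α :=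
  U.filter (fun u => ¬ Even (U.filter (fun w => w < u)).card)

theorem evp_disj {α : Type} [LinearOrder α] (U : Finset α) : Disjoint (evp U) (odp U) := by
  rw [disjoint_left]
  intro a h1 h2
  exact (mem_filter.1 h2).2 (mem_filter.1 h1).2

section

variable {V : Type} [Fintype V] [LinearOrder V] {G : SimpleGraph V}

/-- the number of elements below `v` -/
def cnt (U : Finset (V ×ₗ Bool)) (v : V) : ℕ :=
  ((pl U).filter (fun u => u < v)).card + ((mi U).filter (fun u => u < v)).card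

theorem lex_lt {u v : V} {δ ε : Bool} : (toLex (u, δ) : V ×ₗ Bool) < toLex (v, ε) ↔ u < v ∨ (u = v ∧ δ < ε) := by
  rw [Prod.Lex.lt_iff]
  simp

theorem card_below (U : Finset (V ×ₗ Bool)) (v : V) (ε : Bool) :
    (U.filter (fun w => w < toLex (v, ε))).card = cnt U v + if ε = true ∧ v ∈ pl U then 1 else 0 := by
  classical
  have h1 : (U.filter (fun w => w < toLex (v, ε))).card =
      ∑ w : V ×ₗ Bool, if w ∈ U ∧ w < toLex (v, ε) then 1 else 0 := by
    rw [← card_filter]
    congr 1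
    ext w; simp
  have h2 : ((pl U).filter (fun u => u < v)).card = ∑ u : V, if u ∈ pl U ∧ u < v then 1 else 0 := by
    rw [← card_filter]
    congr 1
    ext w; simp
  have h3 : ((mi U).filter (fun u => u < v)).card = ∑ u : V, if u ∈ mi U ∧ u < v then 1 else 0 := by
    rw [← card_filter]
    congr 1
    ext w; simp
  have h4 : (if ε = true ∧ v ∈ pl U then 1 else 0) = ∑ u : V, if u = v ∧ ε = true ∧ v ∈ pl U then 1 else 0 := by
    rw [← card_filter]
    by_cases h : ε = true ∧ v ∈ pl U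
    · rw [if_pos h]
      have : (univ.filter fun u : V => u = v ∧ ε = true ∧ v ∈ pl U) = {v} := by
        ext u; simp [h.1, h.2]
      rw [this, card_singleton]
    · rw [if_neg h]
      symm
      rw [card_eq_zero, filter_eq_empty_iff]
      rintro u _ ⟨_, h'⟩
      exact h h'
  rw [h1, sum_lex, cnt, h2, h3, h4, ← sum_add_distrib, ← sum_add_distrib]
  refine sum_congr rfl fun u _ => ?_
  simp only [lex_lt, ← mem_pl, ← mem_mi]
  by_cases hp : u ∈ pl U <;> by_cases hm : u ∈ mi U <;> by_cases hu : u < v <;> by_cases he : u = v <;>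
    cases ε <;> simp_all

theorem pl_ev {U : Finset (V ×ₗ Bool)} {v : V} : v ∈ pl (evp U) ↔ v ∈ pl U ∧ Even (cnt U v) := by
  rw [mem_pl, evp, mem_filter, card_below, ← mem_pl]
  simp

theorem pl_od {U : Finset (V ×ₗ Bool)} {v : V} : v ∈ pl (odp U) ↔ v ∈ pl U ∧ ¬ Even (cnt U v) := by
  rw [mem_pl, odp, mem_filter, card_below, ← mem_pl]
  simp

theorem mi_ev {U : Finset (V ×ₗ Bool)} {v : V} :
    v ∈ mi (evp U) ↔ v ∈ mi U ∧ (Even (cnt U v) ↔ v ∉ pl U) := by
  rw [mem_mi, evp, mem_filter, card_below, mem_mi]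
  by_cases h : v ∈ pl U
  · simp [h, Nat.even_add_one]
  · simp [h]

theorem mi_od {U : Finset (V ×ₗ Bool)} {v : V} :
    v ∈ mi (odp U) ↔ v ∈ mi U ∧ ¬ (Even (cnt U v) ↔ v ∉ pl U) := by
  rw [mem_mi, odp, mem_filter, card_below, mem_mi]
  by_cases h : v ∈ pl U
  · simp [h, Nat.even_add_one]
  · simp [h]

theorem pr_ev {U : Finset (V ×ₗ Bool)} {v : V} :
    v ∈ pr (evp U) ↔ (v ∈ pl U ∧ v ∈ mi U) ∨ (v ∈ pr U ∧ Even (cnt U v)) := by
  rw [pr, mem_union, pl_ev, mi_ev, pr, mem_union]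
  tauto

theorem pr_od {U : Finset (V ×ₗ Bool)} {v : V} :
    v ∈ pr (odp U) ↔ (v ∈ pl U ∧ v ∈ mi U) ∨ (v ∈ pr U ∧ ¬ Even (cnt U v)) := by
  rw [pr, mem_union, pl_od, mi_od, pr, mem_union]
  tauto

/-- the side of `U` with even count -/
def sA (U : Finset (V ×ₗ Bool)) : Finset V := (pr U).filter (fun v => Even (cnt U v))

theorem A_eq (U : Finset (V ×ₗ Bool)) : pl (evp U) ∪ (mi (evp U) \ pl (odp U)) = sA U := by
  ext v
  rw [mem_union, mem_sdiff, pl_ev, mi_ev, pl_od, sA, mem_filter, pr, mem_union]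
  tauto

theorem B_eq (U : Finset (V ×ₗ Bool)) : pl (odp U) ∪ (mi (odp U) \ pl (evp U)) = pr U \ sA U := by
  ext v
  rw [mem_union, mem_sdiff, mem_sdiff, pl_ev, mi_od, pl_od, sA, mem_filter, pr, mem_union]
  tauto

theorem M_eq (U : Finset (V ×ₗ Bool)) :
    (mi (evp U) \ pl (odp U)) ∪ (mi (odp U) \ pl (evp U)) = mi U \ pl U := by
  ext v
  rw [mem_union, mem_sdiff, mem_sdiff, mem_sdiff, pl_ev, mi_od, pl_od, mi_ev]
  tauto

theorem clq_of_pr {U : Finset (V ×ₗ Bool)} (h : G.IsClique (pr U : Set V)) (hi : ∀ v ∈ pl U, v ∉ mi U) :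
    (oct G).IsClique (U : Set (V ×ₗ Bool)) := by
  intro p hp q hq hne
  obtain ⟨⟨u, δ⟩, rfl⟩ := toLex.surjective p
  obtain ⟨⟨v, ε⟩, rfl⟩ := toLex.surjective q
  have hu : u ∈ pr U := mem_pr.2 ⟨δ, hp⟩
  have hv : v ∈ pr U := mem_pr.2 ⟨ε, hq⟩
  refine h hu hv ?_
  rintro rfl
  have h2 : δ ≠ ε := fun e => hne (by rw [e])
  cases δ <;> cases ε
  · exact h2 rfl
  · exact hi u (mem_pl.2 hp) (mem_mi.2 hq)
  · exact hi u (mem_pl.2 hq) (mem_mi.2 hp)
  · exact h2 rfl

variable {c' z : Finset V → ZMod 2}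

theorem ZC_ev (hz0 : ∀ ρ, z ρ ≠ 0 → G.IsClique (ρ : Set V)) (U : Finset (V ×ₗ Bool)) :
    ZC G c' z (evp U) (odp U) =
      z (pr (evp U)) * z (pr (odp U)) * KC G c' (sA U) (pr U \ sA U) (mi U \ pl U) := by
  classical
  rw [ZC, A_eq, B_eq, M_eq]
  split_ifs with h
  · rfl
  · by_contra h2
    have h3 : z (pr (evp U)) ≠ 0 ∧ z (pr (odp U)) ≠ 0 := by
      constructor
      · intro h4; apply h2; rw [h4]; ring
      · intro h4; apply h2; rw [h4]; ring
    apply h
    refine ⟨clq_of_pr (hz0 _ h3.1) fun v h4 h5 => ?_, clq_of_pr (hz0 _ h3.2) fun v h4 h5 => ?_⟩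
    · rw [pl_ev] at h4
      rw [mi_ev] at h5
      exact (h5.2.1 h4.2) h4.1
    · rw [pl_od] at h4
      rw [mi_od] at h5
      apply h5.2
      constructor
      · intro h6; exact absurd h6 h4.2
      · intro h6; exact absurd h4.1 h6

/-- changing the sign of `v` -/
def tg (v : V) (U : Finset (V ×ₗ Bool)) : Finset (V ×ₗ Bool) :=
  univ.filter (fun p => (if (ofLex p).1 = v then toLex (v, !(ofLex p).2) else p) ∈ U)

theorem pl_tg {v u : V} {U : Finset (V ×ₗ Bool)} : u ∈ pl (tg v U) ↔ if u = v then u ∈ mi U else u ∈ pl U := by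
  rw [mem_pl, tg, mem_filter]
  by_cases h : u = v
  · subst h; simp [mem_mi]
  · simp [h, mem_pl]

theorem mi_tg {v u : V} {U : Finset (V ×ₗ Bool)} : u ∈ mi (tg v U) ↔ if u = v then u ∈ pl U else u ∈ mi U := by
  rw [mem_mi, tg, mem_filter]
  by_cases h : u = v
  · subst h; simp [mem_pl]
  · simp [h, mem_mi]

theorem pr_tg (v : V) (U : Finset (V ×ₗ Bool)) : pr (tg v U) = pr U := by
  ext u
  rw [pr, pr, mem_union, mem_union, pl_tg, mi_tg]
  split_ifs <;> tauto

theorem ext_pm {U W : Finset (V ×ₗ Bool)} (h1 : pl U = pl W) (h2 : mi U = mi W) : U = W := by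
  ext p
  obtain ⟨⟨v, ε⟩, rfl⟩ := toLex.surjective p
  cases ε
  · rw [← mem_pl, ← mem_pl, h1]
  · rw [← mem_mi, ← mem_mi, h2]

theorem tg_tg (v : V) (U : Finset (V ×ₗ Bool)) : tg v (tg v U) = U := by
  refine ext_pm ?_ ?_
  · ext u
    rw [pl_tg]
    split_ifs with h
    · rw [mi_tg, if_pos h]
    · rw [pl_tg, if_neg h]
  · ext u
    rw [mi_tg]
    split_ifs with h
    · rw [pl_tg, if_pos h]
    · rw [mi_tg, if_neg h]

/-- the sum over the two parts -/
theorem cnt_sum (U : Finset (V ×ₗ Bool)) (Q : V → Prop) [DecidablePred Q] :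
    ((pl U).filter Q).card + ((mi U).filter Q).card =
      ∑ u : V, ((if u ∈ pl U ∧ Q u then 1 else 0) + (if u ∈ mi U ∧ Q u then 1 else 0)) := by
  have h2 : ((pl U).filter Q).card = ∑ u : V, if u ∈ pl U ∧ Q u then 1 else 0 := by
    rw [← card_filter]
    congr 1
    ext w; simp
  have h3 : ((mi U).filter Q).card = ∑ u : V, if u ∈ mi U ∧ Q u then 1 else 0 := by
    rw [← card_filter]
    congr 1
    ext w; simp
  rw [h2, h3, sum_add_distrib]

theorem cnt_tg (v : V) (U : Finset (V ×ₗ Bool)) (Q : V → Prop) [DecidablePred Q] :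
    ((pl (tg v U)).filter Q).card + ((mi (tg v U)).filter Q).card =
      ((pl U).filter Q).card + ((mi U).filter Q).card := by
  classical
  rw [cnt_sum, cnt_sum]
  refine sum_congr rfl fun u _ => ?_
  by_cases h : u = v
  · subst h
    rw [add_comm]
    congr 1
    · refine if_congr ?_ rfl rfl
      rw [mi_tg, if_pos rfl]
    · refine if_congr ?_ rfl rfl
      rw [pl_tg, if_pos rfl]
  · congr 1
    · refine if_congr ?_ rfl rfl
      rw [pl_tg, if_neg h]
    · refine if_congr ?_ rfl rfl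
      rw [mi_tg, if_neg h]

theorem card_pm (U : Finset (V ×ₗ Bool)) : U.card = (pl U).card + (mi U).card := by
  classical
  have h1 : U.card = ∑ w : V ×ₗ Bool, if w ∈ U then 1 else 0 := by
    rw [← card_filter]
    congr 1
    ext w; simp
  have h := cnt_sum U (fun _ => True)
  rw [filter_true_of_mem (fun _ _ => trivial), filter_true_of_mem (fun _ _ => trivial)] at h
  rw [h, h1, sum_lex]
  refine sum_congr rfl fun u _ => ?_
  simp only [← mem_pl, ← mem_mi, and_true]

theorem card_tg (v : V) (U : Finset (V ×ₗ Bool)) : (tg v U).card = U.card := by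
  have h := cnt_tg v U (fun _ => True)
  rw [filter_true_of_mem (fun _ _ => trivial), filter_true_of_mem (fun _ _ => trivial),
    filter_true_of_mem (fun _ _ => trivial), filter_true_of_mem (fun _ _ => trivial)] at h
  rw [card_pm, card_pm, h]

theorem cnt_tg' (v : V) (U : Finset (V ×ₗ Bool)) (u : V) : cnt (tg v U) u = cnt U u := cnt_tg v U _

theorem sA_tg (v : V) (U : Finset (V ×ₗ Bool)) : sA (tg v U) = sA U := by
  ext u
  rw [sA, sA, mem_filter, mem_filter, pr_tg, cnt_tg']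

/-- the vertices of `U` with one sign only -/
def sg1 (U : Finset (V ×ₗ Bool)) : Finset V := (pr U).filter (fun v => ¬ (v ∈ pl U ∧ v ∈ mi U))

theorem and_tg {v u : V} {U : Finset (V ×ₗ Bool)} : (u ∈ pl (tg v U) ∧ u ∈ mi (tg v U)) ↔ (u ∈ pl U ∧ u ∈ mi U) := by
  rw [pl_tg, mi_tg]
  split_ifs <;> tauto

theorem sg1_tg (v : V) (U : Finset (V ×ₗ Bool)) : sg1 (tg v U) = sg1 U := by
  ext u
  rw [sg1, sg1, mem_filter, mem_filter, pr_tg, and_tg]

theorem prev_tg (v : V) (U : Finset (V ×ₗ Bool)) : pr (evp (tg v U)) = pr (evp U) := by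
  ext u
  rw [pr_ev, pr_ev, and_tg, pr_tg, cnt_tg']

theorem prod_tg (v : V) (U : Finset (V ×ₗ Bool)) : pr (odp (tg v U)) = pr (odp U) := by
  ext u
  rw [pr_od, pr_od, and_tg, pr_tg, cnt_tg']

end

end Pool.Agent.V5helper75.VO
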