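import Pool.Agent.V5helper75.VO.Eval

/-!
# Project VO: the evaluation of the obstruction on the cycle, II
-/

set_option autoImplicit false
set_option linter.unusedSectionVars false

namespace Pool.Agent.V5helper75.VO

open Finset

section

variable {V : Type} [Fintype V] [LinearOrder V] {G : SimpleGraph V} {c' z : Finset V → ZMod 2}

/-- the term of the double sum -/
def FF (c' z : Finset V → ZMod 2) (x : Finset (V ×ₗ Bool) × Finset V) : ZMod 2 :=
  z (pr (evp x.1)) * z (pr (odp x.1)) * gg c' x.2 (sA x.1 ∩ x.2)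

/-- the index set of the double sum -/
def CX (G : SimpleGraph V) (k : ℕ) (x : Finset (V ×ₗ Bool) × Finset V) : Prop :=
  x.1.card = 2 * k ∧ x.2 ⊆ pr x.1 ∧ mi x.1 \ pl x.1 ⊆ x.2 ∧ G.IsClique (x.2 : Set V)

theorem sA_sub (U : Finset (V ×ₗ Bool)) : sA U ⊆ pr U := filter_subset _ _

theorem sum_ind {α M : Type} [Fintype α] [DecidableEq α] [AddCommMonoid M] (s : Finset α) (f : α → M) :
    ∑ a ∈ s, f a = ∑ a, if a ∈ s then f a else 0 := by
  rw [← sum_filter]
  refine sum_congr ?_ fun _ _ => rfl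
  ext a; simp

open Classical in
theorem eval1 (hz0 : ∀ ρ, z ρ ≠ 0 → G.IsClique (ρ : Set V)) (k : ℕ) :
    ∑ U ∈ powersetCard (2 * k) (univ : Finset (V ×ₗ Bool)), ZC G c' z (evp U) (odp U) =
      ∑ x ∈ univ.filter (CX G k), FF c' z x := by
  rw [sum_filter, Fintype.sum_prod_type, powersetCard_eq_filter, sum_filter, powerset_univ]
  refine sum_congr rfl fun U _ => ?_
  split_ifs with h
  · rw [ZC_ev hz0, KC, union_sdiff_of_subset (sA_sub U), mul_sum, sum_filter, ← powerset_univ]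
    rw [sum_ind]
    refine sum_congr (by rw [powerset_univ]) fun ω _ => ?_
    by_cases h2 : ω ∈ (pr U).powerset
    · rw [if_pos h2]
      rw [mem_powerset] at h2
      refine if_congr ?_ rfl rfl
      constructor
      · rintro ⟨h3, h4⟩; exact ⟨h, h2, h3, h4⟩
      · rintro ⟨_, _, h3, h4⟩; exact ⟨h3, h4⟩
    · rw [if_neg h2, if_neg]
      exact fun h3 => h2 (mem_powerset.2 h3.2.1)
  · symm
    refine sum_eq_zero fun ω _ => if_neg ?_
    exact fun h3 => h h3.1

/-- change the sign of the first element of `S` -/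
def ivm (S : Finset V) (x : Finset (V ×ₗ Bool) × Finset V) : Finset (V ×ₗ Bool) × Finset V :=
  if h : S.Nonempty then (tg (S.min' h) x.1, x.2) else x

theorem ivm_ivm (S : Finset V) (x : Finset (V ×ₗ Bool) × Finset V) : ivm S (ivm S x) = x := by
  unfold ivm
  split_ifs with h
  · simp only [tg_tg]
  · rfl

theorem ivm_set (S : Finset V) (x : Finset (V ×ₗ Bool) × Finset V) :
    (ivm S x).2 ∩ sg1 (ivm S x).1 = x.2 ∩ sg1 x.1 := by
  unfold ivm
  split_ifs with h
  · simp only [sg1_tg]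
  · rfl

/-- the involution -/
def iv (x : Finset (V ×ₗ Bool) × Finset V) : Finset (V ×ₗ Bool) × Finset V := ivm (x.2 ∩ sg1 x.1) x

theorem iv_iv (x : Finset (V ×ₗ Bool) × Finset V) : iv (iv x) = x := by
  have h : (iv x).2 ∩ sg1 (iv x).1 = x.2 ∩ sg1 x.1 := ivm_set _ _
  rw [iv, h]
  exact ivm_ivm _ _

open Classical in
theorem eval2 (k : ℕ) :
    ∑ x ∈ (univ.filter (CX G k)).filter (fun x => (x.2 ∩ sg1 x.1).Nonempty), FF c' z x = 0 := by
  have hiv : ∀ x : Finset (V ×ₗ Bool) × Finset V, ∀ h : (x.2 ∩ sg1 x.1).Nonempty,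
      iv x = (tg ((x.2 ∩ sg1 x.1).min' h) x.1, x.2) := fun x h => by rw [iv, ivm, dif_pos h]
  have hset : ∀ x : Finset (V ×ₗ Bool) × Finset V, (iv x).2 ∩ sg1 (iv x).1 = x.2 ∩ sg1 x.1 :=
    fun x => ivm_set _ _
  refine sum_involution (fun x _ => iv x) ?_ ?_ ?_ ?_
  · intro x hx
    have h := (mem_filter.1 hx).2
    rw [hiv x h, FF, FF]
    simp only [prev_tg, prod_tg, sA_tg]
    exact z2_add_self _
  · intro x hx _ he
    have h := (mem_filter.1 hx).2
    rw [hiv x h] at he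
    have h1 := congrArg Prod.fst he
    simp only at h1
    obtain ⟨v, hv⟩ : ∃ v, v = (x.2 ∩ sg1 x.1).min' h := ⟨_, rfl⟩
    rw [← hv] at h1
    have h2 : v ∈ sg1 x.1 := by
      rw [hv]; exact (mem_inter.1 (min'_mem _ h)).2
    rw [sg1, mem_filter, pr, mem_union] at h2
    have h3 : v ∈ pl (tg v x.1) ↔ v ∈ pl x.1 := by rw [h1]
    rw [pl_tg, if_pos rfl] at h3
    tauto
  · intro x hx
    have h := (mem_filter.1 hx).2
    have hX := (mem_filter.1 (mem_filter.1 hx).1).2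
    rw [mem_filter, mem_filter]
    refine ⟨⟨mem_univ _, ?_⟩, ?_⟩
    · rw [hiv x h]
      obtain ⟨v, hv⟩ : ∃ v, v = (x.2 ∩ sg1 x.1).min' h := ⟨_, rfl⟩
      have h2 : v ∈ x.2 := by
        rw [hv]; exact (mem_inter.1 (min'_mem _ h)).1
      rw [← hv]
      obtain ⟨h3, h4, h5, h6⟩ := hX
      refine ⟨?_, ?_, ?_, h6⟩
      · rw [card_tg]; exact h3
      · rw [pr_tg]; exact h4
      · intro u hu
        rw [mem_sdiff, pl_tg, mi_tg] at hu
        by_cases e : u = v
        · rw [e]; exact h2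
        · rw [if_neg e, if_neg e] at hu
          exact h5 (mem_sdiff.2 hu)
    · rw [hset]; exact h
  · intro x hx
    exact iv_iv x

/-- both signs -/
def dbl (ω : Finset V) : Finset (V ×ₗ Bool) := univ.filter (fun p => (ofLex p).1 ∈ ω)

theorem pl_dbl (ω : Finset V) : pl (dbl ω) = ω := by
  ext v; rw [mem_pl, dbl, mem_filter]; simp

theorem mi_dbl (ω : Finset V) : mi (dbl ω) = ω := by
  ext v; rw [mem_mi, dbl, mem_filter]; simp

theorem pr_dbl (ω : Finset V) : pr (dbl ω) = ω := by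
  rw [pr, pl_dbl, mi_dbl, union_idempotent]

theorem gg_min {k : ℕ} (hck : ∀ π, π.card < k → c' π = 0) {ω : Finset V} (A : Finset V) (hω : ω.card ≤ k) :
    gg c' ω A = c' ω := by
  unfold gg
  refine sum_eq_single_of_mem ω ?_ ?_
  · rw [mem_filter, mem_powerset]; exact ⟨Subset.rfl, sdiff_subset⟩
  · intro π hπ hne
    rw [mem_filter, mem_powerset] at hπ
    refine hck π (lt_of_lt_of_le ?_ hω)
    exact card_lt_card (hπ.1.ssubset_of_ne hne)

open Classical in
/-- **the evaluation** -/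
theorem eval {k : ℕ} (hz0 : ∀ ρ, z ρ ≠ 0 → G.IsClique (ρ : Set V)) (hzk : ∀ ρ, z ρ ≠ 0 → ρ.card = k)
    (hck : ∀ π, π.card < k → c' π = 0) :
    ∑ U ∈ powersetCard (2 * k) (univ : Finset (V ×ₗ Bool)), ZC G c' z (evp U) (odp U) =
      ∑ ω, z ω * c' ω := by
  rw [eval1 hz0, ← sum_filter_add_sum_filter_not _ (fun x => (x.2 ∩ sg1 x.1).Nonempty), eval2, zero_add]
  -- the other terms
  have key : ∀ x ∈ (univ.filter (CX G k)).filter (fun x => ¬ (x.2 ∩ sg1 x.1).Nonempty), FF c' z x ≠ 0 →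
      x.1 = dbl x.2 ∧ x.2.card = k := by
    rintro ⟨U, ω⟩ hx hne
    rw [mem_filter, mem_filter] at hx
    obtain ⟨⟨_, hX⟩, hn⟩ := hx
    obtain ⟨h3, h4, h5, h6⟩ := hX
    dsimp only at h3 h4 h5 h6 hn ⊢
    rw [FF] at hne
    dsimp only at hne
    have n1 : z (pr (evp U)) ≠ 0 := fun h => hne (by rw [h]; ring)
    have n2 : z (pr (odp U)) ≠ 0 := fun h => hne (by rw [h]; ring)
    have n3 : gg c' ω (sA U ∩ ω) ≠ 0 := fun h => hne (by rw [h]; ring)
    have k1 := hzk _ n1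
    have k2 := hzk _ n2
    have k3 : k ≤ ω.card := by
      by_contra h
      rw [not_le] at h
      rw [gg_min (k := ω.card + 1) (fun π hπ => hck π (by omega)) _ (by omega), hck ω h] at n3
      exact n3 rfl
    have hω : ∀ v ∈ ω, v ∈ pl U ∧ v ∈ mi U := by
      intro v hv
      by_contra h
      apply hn
      exact ⟨v, mem_inter.2 ⟨hv, by rw [sg1, mem_filter]; exact ⟨h4 hv, h⟩⟩⟩
    have s1 : ω ⊆ pr (evp U) := fun v hv => pr_ev.2 (Or.inl (hω v hv))
    have s2 : ω ⊆ pr (odp U) := fun v hv => pr_od.2 (Or.inl (hω v hv))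
    have e1 : ω = pr (evp U) := eq_of_subset_of_card_le s1 (by omega)
    have e2 : ω = pr (odp U) := eq_of_subset_of_card_le s2 (by omega)
    have e3 : pr U ⊆ ω := by
      intro v hv
      by_cases h : Even (cnt U v)
      · rw [e1]; exact pr_ev.2 (Or.inr ⟨hv, h⟩)
      · rw [e2]; exact pr_od.2 (Or.inr ⟨hv, h⟩)
    refine ⟨ext_pm ?_ ?_, ?_⟩
    · rw [pl_dbl]
      exact Subset.antisymm (fun v hv => e3 (mem_union_left _ hv)) fun v hv => (hω v hv).1
    · rw [mi_dbl]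
      exact Subset.antisymm (fun v hv => e3 (mem_union_right _ hv)) fun v hv => (hω v hv).2
    · rw [e1]; exact k1
  rw [← sum_filter_of_ne key]
  have h2 : ∑ ω, z ω * c' ω = ∑ ω ∈ univ.filter (fun ω : Finset V => ω.card = k ∧ G.IsClique (ω : Set V)), z ω * c' ω := by
    symm
    refine sum_filter_of_ne fun ω _ h => ?_
    have n1 : z ω ≠ 0 := fun h' => h (by rw [h', zero_mul])
    exact ⟨hzk ω n1, hz0 ω n1⟩
  rw [h2]
  refine sum_nbij' (fun x => x.2) (fun ω => (dbl ω, ω)) ?_ ?_ ?_ ?_ ?_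
  · rintro ⟨U, ω⟩ hx
    rw [mem_filter, mem_filter, mem_filter] at hx
    rw [mem_filter]
    exact ⟨mem_univ _, hx.2.2, hx.1.1.2.2.2.2⟩
  · intro ω hω
    rw [mem_filter] at hω
    rw [mem_filter, mem_filter, mem_filter]
    refine ⟨⟨⟨mem_univ _, ?_, ?_, ?_, hω.2.2⟩, ?_⟩, rfl, hω.2.1⟩
    · rw [card_pm, pl_dbl, mi_dbl, hω.2.1, two_mul]
    · rw [pr_dbl]
    · rw [mi_dbl, pl_dbl, sdiff_self]; exact empty_subset _
    · rw [not_nonempty_iff_eq_empty, ← disjoint_iff_inter_eq_empty, disjoint_left]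
      intro v _ hv
      rw [sg1, mem_filter, pl_dbl, mi_dbl, pr_dbl] at hv
      exact hv.2 ⟨hv.1, hv.1⟩
  · rintro ⟨U, ω⟩ hx
    rw [mem_filter] at hx
    exact Prod.ext hx.2.1.symm rfl
  · intro ω _; rfl
  · rintro ⟨U, ω⟩ hx
    rw [mem_filter] at hx
    obtain ⟨hU, hk⟩ := hx.2
    dsimp only at hU hk ⊢
    rw [FF]
    dsimp only
    rw [gg_min hck _ hk.le]
    have e1 : pr (evp U) = ω := by
      ext v
      rw [pr_ev, hU, pl_dbl, mi_dbl, pr_dbl]
      tauto
    have e2 : pr (odp U) = ω := by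
      ext v
      rw [pr_od, hU, pl_dbl, mi_dbl, pr_dbl]
      tauto
    rw [e1, e2]
    have h3 : ∀ a : ZMod 2, a * a = a := by decide
    rw [h3]

end

end Pool.Agent.V5helper75.VO
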