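import Pool.Agent.V5helper75.VO.Zeta

/-!
# Project VO: the coefficients of the cycle
-/

set_option autoImplicit false

namespace Pool.Agent.V5helper75.VO

open Finset

variable {V : Type} [LinearOrder V]

/-- `∑_{ω ∖ A ⊆ π ⊆ ω} c'(π)` -/
def gg (c' : Finset V → ZMod 2) (ω A : Finset V) : ZMod 2 :=
  ∑ π ∈ ω.powerset.filter (fun π => ω \ A ⊆ π), c' π

/-- the number of sets between two sets, modulo 2 -/
theorem card_between (ρ ω : Finset V) :
    ((ω.powerset.filter (fun π => ρ ⊆ π)).card : ZMod 2) = if ρ = ω then 1 else 0 := by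
  by_cases h : ρ ⊆ ω
  · have h1 := sum_between h (fun _ => (1 : ℕ))
    rw [sum_const, sum_const, card_powerset, smul_eq_mul, mul_one, smul_eq_mul, mul_one] at h1
    rw [h1]
    split_ifs with h2
    · rw [h2, sdiff_self]; simp
    · have h3 : (ω \ ρ).card ≠ 0 := by
        rw [Ne, card_eq_zero, sdiff_eq_empty_iff_subset]
        exact fun h3 => h2 (h.antisymm h3)
      obtain ⟨m, hm⟩ := Nat.exists_eq_succ_of_ne_zero h3
      rw [hm, pow_succ]
      push_cast
      have : (2 : ZMod 2) = 0 := rfl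
      rw [this, mul_zero]
  · have h3 : ω.powerset.filter (fun π => ρ ⊆ π) = ∅ := by
      rw [filter_eq_empty_iff]
      intro π hπ h2
      exact h (h2.trans (mem_powerset.1 hπ))
    rw [if_neg (fun h2 => h h2.subset), h3, card_empty, Nat.cast_zero]

/-- symmetry -/
theorem gg_symm {c' : Finset V → ZMod 2} {ω A : Finset V} (hA : A ⊆ ω)
    (hc : ∀ π ⊆ ω, ∑ ρ ∈ π.powerset, c' ρ = c' π) : gg c' ω A = gg c' ω (ω \ A) := by
  unfold gg
  have h1 : ∀ π ∈ ω.powerset.filter (fun π => ω \ A ⊆ π), c' π = ∑ ρ ∈ π.powerset, c' ρ := by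
    intro π hπ
    rw [mem_filter, mem_powerset] at hπ
    exact (hc π hπ.1).symm
  rw [sum_congr rfl h1]
  rw [sum_comm' (t' := ω.powerset) (s' := fun ρ => ω.powerset.filter (fun π => (ω \ A) ∪ ρ ⊆ π))]
  · have h2 : ∀ ρ ∈ ω.powerset, ∑ π ∈ ω.powerset.filter (fun π => (ω \ A) ∪ ρ ⊆ π), c' ρ =
        if A ⊆ ρ then c' ρ else 0 := by
      intro ρ hρ
      rw [mem_powerset] at hρ
      rw [sum_const, nsmul_eq_mul, card_between]
      have h3 : (ω \ A) ∪ ρ = ω ↔ A ⊆ ρ := by
        constructor
        · intro h x hx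
          have h4 : x ∈ (ω \ A) ∪ ρ := by rw [h]; exact hA hx
          rcases mem_union.1 h4 with h5 | h5
          · exact absurd hx (mem_sdiff.1 h5).2
          · exact h5
        · intro h
          refine Subset.antisymm (union_subset sdiff_subset hρ) fun x hx => ?_
          by_cases h4 : x ∈ A
          · exact mem_union_right _ (h h4)
          · exact mem_union_left _ (mem_sdiff.2 ⟨hx, h4⟩)
      simp only [h3]
      split_ifs <;> simp
    rw [sum_congr rfl h2, ← sum_filter, Finset.sdiff_sdiff_eq_self hA]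
  · intro π ρ
    simp only [mem_powerset, mem_filter, union_subset_iff]
    constructor
    · rintro ⟨⟨h1, h2⟩, h3⟩; exact ⟨⟨h1, h2, h3⟩, h3.trans h1⟩
    · rintro ⟨⟨h1, h2, h3⟩, _⟩; exact ⟨⟨h1, h2⟩, h3⟩

/-- the difference in the direction of a new vertex -/
theorem gg_step (c' : Finset V → ZMod 2) {ω A : Finset V} {v : V} (hv : v ∉ ω) (hA : A ⊆ ω) :
    gg c' (insert v ω) A = gg c' ω A + gg c' (insert v ω) (insert v A) := by
  have hvA : v ∉ A := fun h => hv (hA h)
  have e0 : insert v ω \ insert v A = ω \ A := by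
    ext x; simp only [mem_sdiff, mem_insert]
    constructor
    · rintro ⟨rfl | h1, h2⟩
      · exact absurd (Or.inl rfl) h2
      · exact ⟨h1, fun h => h2 (Or.inr h)⟩
    · rintro ⟨h1, h2⟩
      refine ⟨Or.inr h1, ?_⟩
      rintro (rfl | h)
      · exact hv h1
      · exact h2 h
  have e1 : gg c' (insert v ω) (insert v A) = gg c' ω A + gg c' (insert v ω) A := by
    unfold gg
    rw [e0, ← sum_filter_add_sum_filter_not _ (fun π => v ∉ π), filter_filter, filter_filter]
    congr 1
    · refine sum_congr ?_ fun _ _ => rfl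
      ext π
      simp only [mem_filter, mem_powerset]
      constructor
      · rintro ⟨h1, h2, h3⟩
        exact ⟨(subset_insert_iff_of_notMem h3).1 h1, h2⟩
      · rintro ⟨h1, h2⟩
        exact ⟨h1.trans (subset_insert _ _), h2, fun h => hv (h1 h)⟩
    · refine sum_congr ?_ fun _ _ => rfl
      ext π
      simp only [mem_filter, mem_powerset, not_not]
      constructor
      · rintro ⟨h1, h2, h3⟩
        refine ⟨h1, ?_⟩
        intro x hx
        rw [mem_sdiff, mem_insert] at hx
        rcases hx.1 with rfl | h4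
        · exact h3
        · exact h2 (mem_sdiff.2 ⟨h4, hx.2⟩)
      · rintro ⟨h1, h2⟩
        refine ⟨h1, fun x hx => ?_, ?_⟩
        · rw [mem_sdiff] at hx
          exact h2 (mem_sdiff.2 ⟨mem_insert_of_mem hx.1, hx.2⟩)
        · exact h2 (mem_sdiff.2 ⟨mem_insert_self _ _, hvA⟩)
  rw [e1, ← add_assoc, z2_add_self, zero_add]

section

variable (G : SimpleGraph V) (c' : Finset V → ZMod 2)

open Classical in
/-- the coefficient of the cell with the sides `A`, `B` and the marks `M` -/
noncomputable def KC (A B M : Finset V) : ZMod 2 :=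
  ∑ ω ∈ (A ∪ B).powerset.filter (fun ω => M ⊆ ω ∧ G.IsClique (ω : Set V)), gg c' ω (A ∩ ω)

variable {G c'}

theorem KC_symm {A B M : Finset V} (hAB : Disjoint A B)
    (hc : ∀ π : Finset V, G.IsClique (π : Set V) → ∑ ρ ∈ π.powerset, c' ρ = c' π) :
    KC G c' A B M = KC G c' B A M := by
  classical
  unfold KC
  rw [union_comm B A]
  refine sum_congr rfl fun ω hω => ?_
  rw [mem_filter, mem_powerset] at hω
  have h1 : B ∩ ω = ω \ (A ∩ ω) := by
    ext x
    simp only [mem_inter, mem_sdiff, not_and]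
    constructor
    · rintro ⟨h1, h2⟩
      exact ⟨h2, fun h3 => absurd h1 (disjoint_left.1 hAB h3)⟩
    · rintro ⟨h1, h2⟩
      rcases mem_union.1 (hω.1 h1) with h3 | h3
      · exact absurd h1 (h2 h3)
      · exact ⟨h3, h1⟩
  rw [h1]
  exact gg_symm inter_subset_right fun π hπ => hc π (hω.2.2.subset (by exact_mod_cast hπ))

/-- the two signs of a new vertex -/
theorem KC_new {A B M : Finset V} {v : V} (hA : v ∉ A) (hB : v ∉ B) :
    KC G c' (insert v A) B M + KC G c' (insert v A) B (insert v M) = KC G c' A B M := by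
  classical
  unfold KC
  rw [insert_union, ← sum_filter_add_sum_filter_not _ (fun ω => v ∉ ω), filter_filter, filter_filter]
  have h1 : ((insert v (A ∪ B)).powerset.filter (fun ω => (M ⊆ ω ∧ G.IsClique (ω : Set V)) ∧ ¬ v ∉ ω)) =
      (insert v (A ∪ B)).powerset.filter (fun ω => insert v M ⊆ ω ∧ G.IsClique (ω : Set V)) := by
    refine filter_congr fun ω _ => ?_
    rw [not_not, insert_subset_iff]
    tauto
  rw [h1, add_assoc, z2_add_self, add_zero]
  refine sum_congr ?_ ?_
  · ext ω
    simp only [mem_filter, mem_powerset]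
    constructor
    · rintro ⟨h1, h2, h3⟩
      exact ⟨(subset_insert_iff_of_notMem h3).1 h1, h2⟩
    · rintro ⟨h1, h2⟩
      refine ⟨h1.trans (subset_insert _ _), h2, fun h => ?_⟩
      rcases mem_union.1 (h1 h) with h3 | h3
      · exact hA h3
      · exact hB h3
  · intro ω hω
    have hvω : v ∉ ω := by
      rw [mem_filter, mem_powerset] at hω
      intro h
      rcases mem_union.1 (hω.1 h) with h3 | h3
      · exact hA h3
      · exact hB h3
    congr 1
    rw [insert_inter_of_notMem hvω]

/-- moving a marked vertex which is adjacent to all the others to the other side -/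
theorem KC_move {A B M : Finset V} {v : V} (hA : v ∉ A) (hB : v ∈ B) (hM : v ∈ M)
    (hadj : ∀ u ∈ A ∪ B, u ≠ v → G.Adj v u) :
    KC G c' A B M = KC G c' (insert v A) (B.erase v) (M.erase v) := by
  classical
  unfold KC
  have hU : insert v A ∪ B.erase v = A ∪ B := by
    ext x
    simp only [mem_union, mem_insert, mem_erase]
    constructor
    · rintro ((rfl | h) | ⟨_, h⟩)
      · exact Or.inr hB
      · exact Or.inl h
      · exact Or.inr h
    · rintro (h | h)
      · exact Or.inl (Or.inr h)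
      · by_cases h2 : x = v
        · exact Or.inl (Or.inl h2)
        · exact Or.inr ⟨h2, h⟩
  rw [hU]
  -- the sets containing `v`
  have key : ∀ F : Finset V → ZMod 2,
      ∑ ω ∈ (A ∪ B).powerset.filter (fun ω => M ⊆ ω ∧ G.IsClique (ω : Set V)), F ω =
      ∑ ω ∈ (A ∪ B).powerset.filter (fun ω => (M.erase v ⊆ ω ∧ G.IsClique (ω : Set V)) ∧ v ∉ ω),
        F (insert v ω) := by
    intro F
    symm
    refine sum_nbij' (fun ω => insert v ω) (fun ω => ω.erase v) ?_ ?_ ?_ ?_ ?_
    · intro ω hω
      rw [mem_filter, mem_powerset] at hω ⊢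
      obtain ⟨h1, ⟨h2, h3⟩, h4⟩ := hω
      refine ⟨insert_subset (mem_union_right _ hB) h1, fun x hx => ?_, ?_⟩
      · by_cases h5 : x = v
        · exact h5 ▸ mem_insert_self _ _
        · exact mem_insert_of_mem (h2 (mem_erase.2 ⟨h5, hx⟩))
      · rw [coe_insert]
        refine h3.insert fun u hu hne => ?_
        exact hadj u (h1 (mem_coe.1 hu)) hne.symm
    · intro ω hω
      rw [mem_filter, mem_powerset] at hω ⊢
      obtain ⟨h1, h2, h3⟩ := hω
      refine ⟨(erase_subset _ _).trans h1, ⟨?_, h3.subset (by simp)⟩, notMem_erase _ _⟩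
      exact erase_subset_erase v h2
    · intro ω hω
      rw [mem_filter] at hω
      exact erase_insert hω.2.2
    · intro ω hω
      rw [mem_filter] at hω
      exact insert_erase (hω.2.1 hM)
    · intro ω _; rfl
  rw [key]
  rw [← sum_filter_add_sum_filter_not ((A ∪ B).powerset.filter
    (fun ω => M.erase v ⊆ ω ∧ G.IsClique (ω : Set V))) (fun ω => v ∉ ω), filter_filter, filter_filter]
  have key2 : ∀ F : Finset V → ZMod 2,
      ∑ ω ∈ (A ∪ B).powerset.filter (fun ω => (M.erase v ⊆ ω ∧ G.IsClique (ω : Set V)) ∧ ¬ v ∉ ω), F ω =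
      ∑ ω ∈ (A ∪ B).powerset.filter (fun ω => (M.erase v ⊆ ω ∧ G.IsClique (ω : Set V)) ∧ v ∉ ω),
        F (insert v ω) := by
    intro F
    rw [← key F]
    refine sum_congr (filter_congr fun ω _ => ?_) fun _ _ => rfl
    rw [not_not]
    constructor
    · rintro ⟨⟨h1, h2⟩, h3⟩
      refine ⟨fun x hx => ?_, h2⟩
      by_cases h5 : x = v
      · exact h5 ▸ h3
      · exact h1 (mem_erase.2 ⟨h5, hx⟩)
    · rintro ⟨h1, h2⟩
      exact ⟨⟨(erase_subset _ _).trans h1, h2⟩, h1 hM⟩
  rw [key2, ← sum_add_distrib]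
  refine sum_congr rfl fun ω hω => ?_
  rw [mem_filter] at hω
  have hv : v ∉ ω := hω.2.2
  have e1 : A ∩ insert v ω = A ∩ ω := inter_insert_of_notMem hA
  have e2 : insert v A ∩ ω = A ∩ ω := insert_inter_of_notMem hv
  have e3 : insert v A ∩ insert v ω = insert v (A ∩ ω) := (insert_inter_distrib _ _ _).symm
  rw [e1, e2, e3]
  exact gg_step c' hv inter_subset_right

end

end Pool.Agent.V5helper75.VO
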