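import Pool.Agent.V5helper75.VO.Obst
import Pool.Agent.R703.MO.Defs

/-!
# Project VO: homology modulo 2 and real homology
-/

set_option autoImplicit false
set_option linter.unusedSectionVars false

namespace Pool.Agent.V5helper75.VO

open Finset Pool.Agent.W907.SG Pool.Agent.R703.MO Pool.Agent.R782.Bal

/-- exactness modulo 2 in one degree -/
def Ex2 {V : Type} [Fintype V] [DecidableEq V] (G : SimpleGraph V) (A : Set V) (k : ℕ) : Prop :=
  ∀ z : Finset V → ZMod 2, (∀ ρ, z ρ ≠ 0 → G.IsClique (ρ : Set V) ∧ (ρ : Set V) ⊆ A ∧ ρ.card = k) →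
    (∀ ρ : Finset V, ∑ v ∈ ρᶜ, z (insert v ρ) = 0) →
    ∃ y : Finset V → ZMod 2, (∀ ρ, y ρ ≠ 0 → G.IsClique (ρ : Set V) ∧ (ρ : Set V) ⊆ A ∧ ρ.card = k + 1) ∧
      ∀ ρ : Finset V, z ρ = ∑ v ∈ ρᶜ, y (insert v ρ)

section

variable {V : Type} [Fintype V] [LinearOrder V] {G : SimpleGraph V}

/-- the boundary operator modulo 2 -/
def d2 : (Finset V → ZMod 2) →ₗ[ZMod 2] (Finset V → ZMod 2) where
  toFun c T := ∑ v ∈ Tᶜ, c (insert v T)
  map_add' c d := by
    funext T
    simp [Finset.sum_add_distrib]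
  map_smul' a c := by
    funext T
    simp [Finset.mul_sum]

theorem ex2_of_obs {k : ℕ} (hO : Obs (oct G) (2 * k)) : Ex2 G Set.univ k := by
  classical
  intro z hz0 hz
  obtain ⟨K, hK⟩ : ∃ K : Submodule (ZMod 2) (Finset V → ZMod 2), ∀ y, y ∈ K ↔
      ∀ ρ, y ρ ≠ 0 → G.IsClique (ρ : Set V) ∧ (ρ : Set V) ⊆ Set.univ ∧ ρ.card = k + 1 := by
    refine ⟨{ carrier := {y | ∀ ρ, y ρ ≠ 0 → G.IsClique (ρ : Set V) ∧ (ρ : Set V) ⊆ Set.univ ∧ ρ.card = k + 1},
              add_mem' := ?_, zero_mem' := ?_, smul_mem' := ?_ }, fun y => Iff.rfl⟩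
    · intro a b ha hb ρ h
      by_cases h1 : a ρ = 0
      · refine hb ρ fun h2 => h ?_
        rw [Pi.add_apply, h1, h2, add_zero]
      · exact ha ρ h1
    · intro ρ h
      exact absurd rfl h
    · intro c a ha ρ h
      refine ha ρ fun h2 => h ?_
      rw [Pi.smul_apply, h2, smul_zero]
  by_cases hmem : z ∈ K.map d2
  · obtain ⟨y, hy, hyz⟩ := hmem
    exact ⟨y, (hK y).1 hy, fun ρ => by rw [← hyz]; rfl⟩
  exfalso
  obtain ⟨φ, hφ1, hφ2⟩ := Submodule.exists_le_ker_of_notMem hmem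
  -- the cocycle
  obtain ⟨c, hc⟩ : ∃ c : Finset V → ZMod 2, c = fun π : Finset V => if G.IsClique (π : Set V) ∧ π.card = k then
    φ (Pi.single π 1) else 0 := ⟨_, rfl⟩
  have hev := oct_eval (G := G) (c := c) (z := z) hO (fun ρ h => (hz0 ρ h).1) (fun ρ h => (hz0 ρ h).2.2) hz
    (fun π h => ?_) (fun τ hτ => ?_)
  · apply hφ1
    rw [← hev]
    have h1 : z = ∑ ω, z ω • Pi.single ω (1 : ZMod 2) := by
      funext ω
      rw [Finset.sum_apply]
      simp [Pi.single_apply]
    conv_lhs => rw [h1, map_sum]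
    refine sum_congr rfl fun ω _ => ?_
    rw [map_smul, smul_eq_mul]
    by_cases h2 : z ω = 0
    · rw [h2, zero_mul, zero_mul]
    · rw [hc]
      dsimp only
      rw [if_pos ⟨(hz0 ω h2).1, (hz0 ω h2).2.2⟩]
  · rw [hc] at h
    by_contra h2
    exact h (if_neg fun h3 => h2 h3.2)
  · by_cases hk : τ.card = k + 1
    · have h1 : ∀ x ∈ τ, c (τ.erase x) = φ (Pi.single (τ.erase x) 1) := by
        intro x hx
        rw [hc]
        dsimp only
        rw [if_pos]
        refine ⟨hτ.subset (by simp), ?_⟩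
        rw [card_erase_of_mem hx, hk]
        rfl
      rw [sum_congr rfl h1, ← map_sum]
      have h2 : ∑ x ∈ τ, Pi.single (τ.erase x) (1 : ZMod 2) = d2 (Pi.single τ 1) := by
        funext T
        rw [Finset.sum_apply]
        show _ = ∑ v ∈ Tᶜ, (Pi.single τ 1 : Finset V → ZMod 2) (insert v T)
        simp only [Pi.single_apply]
        rw [← sum_filter, ← sum_filter, sum_const, sum_const]
        congr 1
        congr 1
        ext x
        rw [mem_filter, mem_filter, mem_compl]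
        constructor
        · rintro ⟨h3, rfl⟩
          exact ⟨notMem_erase _ _, insert_erase h3⟩
        · rintro ⟨h3, rfl⟩
          exact ⟨mem_insert_self _ _, (erase_insert h3).symm⟩
      rw [h2]
      have h3 : d2 (Pi.single τ 1) ∈ K.map d2 := by
        refine Submodule.mem_map_of_mem ((hK _).2 fun ρ h => ?_)
        have h4 : ρ = τ := by
          by_contra h5
          apply h
          rw [Pi.single_apply, if_neg h5]
        rw [h4]
        exact ⟨hτ, Set.subset_univ _, hk⟩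
      exact LinearMap.mem_ker.1 (hφ2 h3)
    · refine sum_eq_zero fun x hx => ?_
      rw [hc]
      dsimp only
      rw [if_neg]
      rintro ⟨_, h2⟩
      rw [card_erase_of_mem hx] at h2
      have := card_pos.2 ⟨x, hx⟩
      omega

/-- transfer to the copies of `G` in the octahedralization -/
theorem ex2_copy {k : ℕ} (h : Ex2 G Set.univ k) (x : V → Bool) :
    Ex2 (oct G) {p | (ofLex p).2 = x (ofLex p).1} k := by
  classical
  intro z hz0 hz
  obtain ⟨φ, hφ⟩ : ∃ φ : V ↪ V ×ₗ Bool, ∀ v, φ v = toLex (v, x v) :=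
    ⟨⟨fun v => toLex (v, x v), fun a b hab => congrArg (fun p => (ofLex p).1) hab⟩, fun _ => rfl⟩
  obtain ⟨A, hA⟩ : ∃ A : Set (V ×ₗ Bool), A = {p | (ofLex p).2 = x (ofLex p).1} := ⟨_, rfl⟩
  rw [← hA] at hz0 ⊢
  have hmA : ∀ p, p ∈ A ↔ φ (ofLex p).1 = p := by
    intro p
    obtain ⟨⟨v, ε⟩, rfl⟩ := toLex.surjective p
    rw [hA, hφ]
    constructor
    · intro h1
      have h2 : ε = x v := h1
      rw [h2]; rfl
    · intro h1
      have h2 := congrArg (fun p => (ofLex p).2) h1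
      exact h2.symm
  have hφA : ∀ v, φ v ∈ A := by
    intro v
    rw [hmA]
    have h1 := hφ v
    rw [h1]
    exact h1
  have hclq : ∀ ρ : Finset V, (oct G).IsClique ((ρ.map φ : Finset (V ×ₗ Bool)) : Set (V ×ₗ Bool)) ↔
      G.IsClique (ρ : Set V) := by
    intro ρ
    constructor
    · intro h1 a ha b hb hab
      have h2 := h1 (mem_coe.2 (mem_map_of_mem φ ha)) (mem_coe.2 (mem_map_of_mem φ hb)) (fun e => hab (φ.injective e))
      rw [hφ, hφ] at h2
      exact h2
    · intro h1 p hp q hq hpq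
      rw [mem_coe, mem_map] at hp hq
      obtain ⟨a, ha, rfl⟩ := hp
      obtain ⟨b, hb, rfl⟩ := hq
      have h2 := h1 ha hb (fun e => hpq (by rw [e]))
      rw [hφ, hφ]
      exact h2
  have hsum : ∀ (F : V ×ₗ Bool → ZMod 2) (ρ : Finset V), (∀ p, p ∉ A → F p = 0) →
      ∑ p ∈ (ρ.map φ)ᶜ, F p = ∑ v ∈ ρᶜ, F (φ v) := by
    intro F ρ hF
    symm
    refine sum_bij_ne_zero (fun v _ _ => φ v) ?_ ?_ ?_ ?_
    · intro v hv _
      rw [mem_compl] at hv ⊢
      simpa using hv
    · intro a _ _ b _ _ hab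
      exact φ.injective hab
    · intro p hp hne
      have h1 : p ∈ A := by
        by_contra h2
        exact hne (hF p h2)
      rw [hmA] at h1
      refine ⟨(ofLex p).1, ?_, ?_, h1⟩
      · rw [mem_compl] at hp ⊢
        intro h3
        apply hp
        rw [← h1]
        exact mem_map_of_mem φ h3
      · rw [h1]; exact hne
    · intro v _ _; rfl
  obtain ⟨y, hy0, hy⟩ := h (fun ρ => z (ρ.map φ)) (fun ρ hρ => by
    obtain ⟨h1, h2, h3⟩ := hz0 _ hρ
    rw [card_map] at h3
    exact ⟨(hclq ρ).1 h1, Set.subset_univ _, h3⟩) (fun ρ => by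
    have h1 := hz (ρ.map φ)
    rw [hsum (fun p => z (insert p (ρ.map φ))) ρ] at h1
    · rw [← h1]
      refine sum_congr rfl fun v _ => ?_
      rw [map_insert]
    · intro p hp
      by_contra h2
      exact hp ((hz0 _ h2).2.1 (by simp)))
  have hback : ∀ σ : Finset (V ×ₗ Bool), (σ : Set (V ×ₗ Bool)) ⊆ A → (σ.image (fun p => (ofLex p).1)).map φ = σ := by
    intro σ hσ
    ext p
    rw [mem_map]
    constructor
    · rintro ⟨v, hv, rfl⟩
      rw [mem_image] at hv
      obtain ⟨q, hq, rfl⟩ := hv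
      rw [(hmA q).1 (hσ hq)]
      exact hq
    · intro hp
      exact ⟨(ofLex p).1, mem_image_of_mem _ hp, (hmA p).1 (hσ hp)⟩
  have hforw : ∀ ρ : Finset V, (ρ.map φ).image (fun p => (ofLex p).1) = ρ := by
    intro ρ
    ext v
    simp only [mem_image, mem_map, hφ]
    constructor
    · rintro ⟨p, ⟨w, hw, rfl⟩, rfl⟩
      exact hw
    · intro hv
      exact ⟨_, ⟨v, hv, rfl⟩, rfl⟩
  refine ⟨fun σ => if (σ : Set (V ×ₗ Bool)) ⊆ A then y (σ.image (fun p => (ofLex p).1)) else 0, ?_, ?_⟩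
  · intro σ hσ
    by_cases h1 : (σ : Set (V ×ₗ Bool)) ⊆ A
    · dsimp only at hσ
      rw [if_pos h1] at hσ
      obtain ⟨h2, _, h4⟩ := hy0 _ hσ
      refine ⟨?_, h1, ?_⟩
      · rw [← hback σ h1, hclq]; exact h2
      · rw [← hback σ h1, card_map]; exact h4
    · exact absurd (if_neg h1) hσ
  · intro σ
    by_cases h1 : (σ : Set (V ×ₗ Bool)) ⊆ A
    · obtain ⟨ρ, rfl⟩ : ∃ ρ : Finset V, σ = ρ.map φ := ⟨_, (hback σ h1).symm⟩
      rw [hsum]
      · have h2 := hy ρ
        rw [h2]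
        refine sum_congr rfl fun v _ => ?_
        rw [← map_insert]
        show y (insert v ρ) = if (((insert v ρ).map φ : Finset (V ×ₗ Bool)) : Set (V ×ₗ Bool)) ⊆ A then
          y (((insert v ρ).map φ).image (fun p => (ofLex p).1)) else 0
        rw [hforw, if_pos]
        intro p hp
        rw [mem_coe, mem_map] at hp
        obtain ⟨w, _, rfl⟩ := hp
        exact hφA w
      · intro p hp
        exact if_neg fun h3 => hp (h3 (by simp))
    · have h2 : z σ = 0 := by
        by_contra h3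
        exact h1 (hz0 _ h3).2.1
      rw [h2]
      symm
      refine sum_eq_zero fun p _ => if_neg fun h3 => h1 fun q hq => h3 (by rw [coe_insert]; exact Or.inr hq)

end

end Pool.Agent.V5helper75.VO
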