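import Pool.Agent.V5helper75.VO.Eval2
import Pool.Agent.N504.RS.Unc

/-!
# Project VO: the obstruction for an arbitrary linear order, and for the octahedralization
-/

set_option autoImplicit false
set_option linter.unusedSectionVars false

namespace Pool.Agent.V5helper75.VO

open Finset Pool.Agent.W555.KS Pool.Agent.Y131.KS Pool.Agent.R782.Bal Pool.Agent.N504.RS

/-- symmetric cycles of the deleted join of the flag complex of `H` with nonzero evaluation -/
structure Ob {U : Type} [Fintype U] [LinearOrder U] (H : SimpleGraph U) (D : ℕ)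
    (Z : Finset U → Finset U → ZMod 2) : Prop where
  symm : ∀ σ τ, Z σ τ = Z τ σ
  supp : ∀ σ τ, Z σ τ ≠ 0 → H.IsClique (σ : Set U) ∧ H.IsClique (τ : Set U)
  cyc : ∀ ρ τ : Finset U, Disjoint ρ τ → ρ.card + τ.card + 1 = D →
    ∑ v ∈ (ρ ∪ τ)ᶜ, (Z (insert v ρ) τ + Z ρ (insert v τ)) = 0
  ev : ∑ W ∈ powersetCard D univ, Z (evp W) (odp W) = 1

section

variable {U : Type} [Fintype U] [LinearOrder U] {H : SimpleGraph U}

theorem evp_map {n : ℕ} (f : Fin n ≃o U) (W : Finset (Fin n)) :
    evp (W.map f.toEquiv.toEmbedding) = (evenPart W).map f.toEquiv.toEmbedding := by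
  ext u
  obtain ⟨w, rfl⟩ := f.surjective u
  have h1 : ((W.map f.toEquiv.toEmbedding).filter (fun x => x < f w)) =
      (W.filter (fun x => x < w)).map f.toEquiv.toEmbedding := by
    ext x
    obtain ⟨y, rfl⟩ := f.surjective x
    simp
  rw [evp, mem_filter, h1, card_map]
  simp [evenPart]

theorem odp_map {n : ℕ} (f : Fin n ≃o U) (W : Finset (Fin n)) :
    odp (W.map f.toEquiv.toEmbedding) = (oddPart W).map f.toEquiv.toEmbedding := by
  ext u
  obtain ⟨w, rfl⟩ := f.surjective u
  have h1 : ((W.map f.toEquiv.toEmbedding).filter (fun x => x < f w)) =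
      (W.filter (fun x => x < w)).map f.toEquiv.toEmbedding := by
    ext x
    obtain ⟨y, rfl⟩ := f.surjective x
    simp
  rw [odp, mem_filter, h1, card_map]
  simp [oddPart]

theorem sum_cmpl {M : Type} [AddCommMonoid M] {n : ℕ} (f : Fin n ≃o U) (ρ τ : Finset (Fin n)) (F : U → M) :
    ∑ v ∈ (ρ ∪ τ)ᶜ, F (f v) = ∑ v ∈ (ρ.map f.toEquiv.toEmbedding ∪ τ.map f.toEquiv.toEmbedding)ᶜ, F v := by
  rw [← map_union]
  refine sum_bij (fun v _ => f v) ?_ ?_ ?_ ?_
  · intro v hv
    rw [mem_compl] at hv ⊢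
    simpa using hv
  · intro a _ b _ h
    exact f.injective h
  · intro u hu
    obtain ⟨w, rfl⟩ := f.surjective u
    rw [mem_compl] at hu
    exact ⟨w, by rw [mem_compl]; simpa using hu, rfl⟩
  · intro v _; rfl

/-- a cycle with nonzero evaluation is an obstruction -/
theorem Ob.not_obs {D : ℕ} {Z : Finset U → Finset U → ZMod 2} (h : Ob H D Z) : ¬ Obs H D := by
  classical
  intro hO
  obtain ⟨n, hn⟩ : ∃ n, n = Fintype.card U := ⟨_, rfl⟩
  let f : Fin n ≃o U := monoEquivOfFin U hn.symm
  have h1 := hO n f.symm.toEquiv (ZMod 2) (fun σ τ => Z (σ.map f.toEquiv.toEmbedding) (τ.map f.toEquiv.toEmbedding))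
    (fun σ τ => h.symm _ _) (fun σ τ hne => ?_) (fun ρ τ hd hc => ?_)
  · have h2 : ∑ W ∈ powersetCard D (univ : Finset (Fin n)),
        Z ((evenPart W).map f.toEquiv.toEmbedding) ((oddPart W).map f.toEquiv.toEmbedding) =
        ∑ W ∈ powersetCard D (univ : Finset U), Z (evp W) (odp W) := by
      refine sum_bij (fun W _ => W.map f.toEquiv.toEmbedding) ?_ ?_ ?_ ?_
      · intro W hW
        rw [mem_powersetCard] at hW ⊢
        exact ⟨subset_univ _, by rw [card_map]; exact hW.2⟩
      · intro a _ b _ hab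
        exact map_injective _ hab
      · intro W hW
        rw [mem_powersetCard] at hW
        have h3 : (W.map f.symm.toEquiv.toEmbedding).map f.toEquiv.toEmbedding = W := by
          rw [map_map]
          ext x; simp
        refine ⟨W.map f.symm.toEquiv.toEmbedding, ?_, h3⟩
        rw [mem_powersetCard, card_map]
        exact ⟨subset_univ _, hW.2⟩
      · intro W _
        rw [evp_map, odp_map]
    rw [h2, h.ev] at h1
    exact one_ne_zero h1
  · obtain ⟨h3, h4⟩ := h.supp _ _ hne
    rw [mem_clF, mem_clF]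
    exact ⟨h3, h4⟩
  · have h3 := h.cyc (ρ.map f.toEquiv.toEmbedding) (τ.map f.toEquiv.toEmbedding)
      ((disjoint_map _).2 hd) (by rw [card_map, card_map]; exact hc)
    rw [← h3, ← sum_cmpl f ρ τ (fun v => Z (insert v (ρ.map f.toEquiv.toEmbedding)) (τ.map f.toEquiv.toEmbedding) +
      Z (ρ.map f.toEquiv.toEmbedding) (insert v (τ.map f.toEquiv.toEmbedding)))]
    refine sum_congr rfl fun v _ => ?_
    rw [map_insert, map_insert]
    rfl

/-- the converse -/
theorem exists_ob {U : Type} [Finite U] {H : SimpleGraph U} {D : ℕ} (h : ¬ Obs H D) :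
    ∃ (_ : Fintype U) (_ : LinearOrder U) (Z : Finset U → Finset U → ZMod 2), Ob H D Z := by
  classical
  unfold Obs at h
  push Not at h
  obtain ⟨n, e, hVK⟩ := h
  have h2 : ¬ VK2 (clF H e) D := fun h2 => hVK (vk_of_vk2 h2)
  unfold VK2 at h2
  push Not at h2
  obtain ⟨Z, h3, h4, h5, h6⟩ := h2
  let i1 : Fintype U := Fintype.ofEquiv _ e.symm
  let i2 : LinearOrder U := LinearOrder.lift' e e.injective
  let f : Fin n ≃o U := ⟨e.symm, by
    intro a b
    show e (e.symm a) ≤ e (e.symm b) ↔ a ≤ b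
    rw [e.apply_symm_apply, e.apply_symm_apply]⟩
  have hfe : ∀ σ : Finset U, (σ.map e.toEmbedding).map f.toEquiv.toEmbedding = σ := by
    intro σ
    rw [map_map]
    ext x
    rw [mem_map]
    constructor
    · rintro ⟨y, hy, rfl⟩
      have : (e.toEmbedding.trans f.toEquiv.toEmbedding) y = y := e.symm_apply_apply y
      rw [this]; exact hy
    · intro hx
      exact ⟨x, hx, e.symm_apply_apply x⟩
  have hef : ∀ σ : Finset (Fin n), (σ.map f.toEquiv.toEmbedding).map e.toEmbedding = σ := by
    intro σ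
    rw [map_map]
    ext x
    rw [mem_map]
    constructor
    · rintro ⟨y, hy, rfl⟩
      have : (f.toEquiv.toEmbedding.trans e.toEmbedding) y = y := e.apply_symm_apply y
      rw [this]; exact hy
    · intro hx
      exact ⟨x, hx, e.apply_symm_apply x⟩
  refine ⟨i1, i2, fun σ τ => Z (σ.map e.toEmbedding) (τ.map e.toEmbedding), fun σ τ => h3 _ _, ?_, ?_, ?_⟩
  · intro σ τ hne
    obtain ⟨h7, h8⟩ := h4 _ _ hne
    rw [mem_clF] at h7 h8
    have e1 : ∀ σ : Finset U, (σ.map e.toEmbedding).map e.symm.toEmbedding = σ := hfe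
    rw [e1] at h7 h8
    exact ⟨h7, h8⟩
  · intro ρ τ hd hc
    have h7 := h5 (ρ.map e.toEmbedding) (τ.map e.toEmbedding) ((disjoint_map _).2 hd)
      (by rw [card_map, card_map]; exact hc)
    have h8 := sum_cmpl f (ρ.map e.toEmbedding) (τ.map e.toEmbedding) (fun v =>
      Z ((insert v ρ).map e.toEmbedding) (τ.map e.toEmbedding) + Z (ρ.map e.toEmbedding) ((insert v τ).map e.toEmbedding))
    rw [hfe, hfe] at h8
    rw [← h8, ← h7]
    refine sum_congr rfl fun v _ => ?_
    have h9 : ∀ ρ : Finset U, (insert (f v) ρ).map e.toEmbedding = insert v (ρ.map e.toEmbedding) := by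
      intro ρ
      rw [map_insert]
      congr 1
      exact e.apply_symm_apply v
    rw [h9, h9]
  · have h10 : ∑ W ∈ powersetCard D (univ : Finset U),
        Z ((evp W).map e.toEmbedding) ((odp W).map e.toEmbedding) =
        ∑ W ∈ powersetCard D (univ : Finset (Fin n)), Z (evenPart W) (oddPart W) := by
      symm
      refine sum_bij (fun W _ => W.map f.toEquiv.toEmbedding) ?_ ?_ ?_ ?_
      · intro W hW
        rw [mem_powersetCard] at hW ⊢
        exact ⟨subset_univ _, by rw [card_map]; exact hW.2⟩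
      · intro a _ b _ hab
        exact map_injective _ hab
      · intro W hW
        rw [mem_powersetCard] at hW
        refine ⟨W.map e.toEmbedding, ?_, hfe W⟩
        rw [mem_powersetCard, card_map]
        exact ⟨subset_univ _, hW.2⟩
      · intro W _
        rw [evp_map, odp_map, hef, hef]
    rw [h10]
    have h11 : ∀ a : ZMod 2, a ≠ 0 → a = 1 := by decide
    exact h11 _ h6

end

section

variable {V : Type} [Fintype V] [LinearOrder V] {G : SimpleGraph V}

/-- **Octahedralizations.** If the obstruction of the octahedralization vanishes in the degree `2 k` then all the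
cocycles vanish on all the cycles of degree `k - 1`. -/
theorem oct_eval {k : ℕ} (hO : Obs (oct G) (2 * k)) {z c : Finset V → ZMod 2}
    (hz0 : ∀ ρ, z ρ ≠ 0 → G.IsClique (ρ : Set V)) (hzk : ∀ ρ, z ρ ≠ 0 → ρ.card = k)
    (hz : ∀ ρ : Finset V, ∑ v ∈ ρᶜ, z (insert v ρ) = 0) (hck : ∀ π, c π ≠ 0 → π.card = k)
    (hc : ∀ τ : Finset V, G.IsClique (τ : Set V) → ∑ x ∈ τ, c (τ.erase x) = 0) :
    ∑ ω, z ω * c ω = 0 := by
  classical
  obtain ⟨c', hc'⟩ : ∃ c', c' = ch c := ⟨_, rfl⟩
  have hck' : ∀ π : Finset V, π.card < k → c' π = 0 := by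
    intro π hπ
    rw [hc', ch]
    refine sum_eq_zero fun ρ hρ => ?_
    have h1 : c ρ = 0 := by
      by_contra h
      have := hck ρ h
      have h2 := card_le_card (mem_powerset.1 hρ)
      omega
    rw [h1, zero_mul]
  have hck'' : ∀ π : Finset V, π.card = k → c' π = c π := by
    intro π hπ
    rw [hc', ch]
    refine (sum_eq_single_of_mem π (mem_powerset_self π) ?_).trans ?_
    · intro ρ hρ hne
      have h1 : c ρ = 0 := by
        by_contra h
        have := hck ρ h
        have h2 := card_lt_card ((mem_powerset.1 hρ).ssubset_of_ne hne)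
        omega
      rw [h1, zero_mul]
    · rw [Finset.sdiff_self, prod_empty, mul_one]
  have hζ : ∀ π : Finset V, G.IsClique (π : Set V) → ∑ ρ ∈ π.powerset, c' ρ = c' π := by
    intro π hπ
    rw [hc']
    exact zeta fun τ hτ => hc τ (hπ.subset (by exact_mod_cast hτ))
  have hev := eval (G := G) (c' := c') (z := z) (k := k) hz0 hzk hck'
  by_contra hne
  have h1 : ∑ ω, z ω * c' ω = 1 := by
    have h2 : ∑ ω, z ω * c' ω = ∑ ω, z ω * c ω := by
      refine sum_congr rfl fun ω _ => ?_
      by_cases h : z ω = 0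
      · rw [h, zero_mul, zero_mul]
      · rw [hck'' ω (hzk ω h)]
    have h11 : ∀ a : ZMod 2, a ≠ 0 → a = 1 := by decide
    rw [h2]
    exact h11 _ hne
  rw [h1] at hev
  refine Ob.not_obs (H := oct G) (D := 2 * k) (Z := fun σ τ => if Disjoint σ τ then ZC G c' z σ τ else 0) ?_ hO
  refine ⟨?_, ?_, ?_, ?_⟩
  · intro σ τ
    by_cases h : Disjoint σ τ
    · rw [if_pos h, if_pos h.symm, ZC_symm hζ h]
    · rw [if_neg h, if_neg (fun h' => h h'.symm)]
  · intro σ τ h
    have h2 : ZC G c' z σ τ ≠ 0 := by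
      intro h3
      apply h
      rw [h3]
      split_ifs <;> rfl
    rw [ZC] at h2
    by_contra h3
    exact h2 (if_neg h3)
  · intro ρ τ hd _
    have e1 : ∑ v ∈ (ρ ∪ τ)ᶜ, (if Disjoint (insert v ρ) τ then ZC G c' z (insert v ρ) τ else 0) = 0 := by
      rw [← ZC_bd (G := G) (c' := c') hz0 hz hd]
      refine sum_congr rfl fun v hv => ?_
      rw [mem_compl, mem_union, not_or] at hv
      rw [if_pos (by rw [disjoint_insert_left]; exact ⟨hv.2, hd⟩)]
    have e2 : ∑ v ∈ (ρ ∪ τ)ᶜ, (if Disjoint ρ (insert v τ) then ZC G c' z ρ (insert v τ) else 0) = 0 := by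
      rw [union_comm, ← ZC_bd (G := G) (c' := c') hz0 hz hd.symm]
      refine sum_congr rfl fun v hv => ?_
      rw [mem_compl, mem_union, not_or] at hv
      have h3 : Disjoint ρ (insert v τ) := by rw [disjoint_insert_right]; exact ⟨hv.2, hd⟩
      rw [if_pos h3, ZC_symm hζ h3]
    rw [sum_add_distrib, e1, e2, add_zero]
  · rw [← hev]
    refine sum_congr rfl fun W _ => ?_
    rw [if_pos (evp_disj W)]

end

end Pool.Agent.V5helper75.VO
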