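import Pool.Agent.V5helper75.VO.Real
import Pool.Agent.R703.MO.Class

/-!
# Project VO: `ℓ²`-vanishing for octahedralizations with vanishing obstruction
-/

set_option autoImplicit false
set_option linter.unusedSectionVars false

namespace Pool.Agent.V5helper75.VO

open Finset Pool.Agent.W907.SG Pool.Agent.W907.SM Pool.Agent.R703.MO Pool.Agent.R782.Bal

theorem lv_oct {V : Type} [Fintype V] [LinearOrder V] {G : SimpleGraph V} {k : ℕ} (hO : Obs (oct G) (2 * k)) :
    LV (oct G) k := by
  classical
  have h1 := ex2_of_obs hO
  by_cases hV : IsEmpty V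
  · have : IsEmpty (V ×ₗ Bool) := ⟨fun p => hV.elim (ofLex p).1⟩
    rcases Nat.eq_zero_or_pos k with rfl | hk
    · exfalso
      obtain ⟨y, -, hy⟩ := h1 (fun ρ => 1) (fun ρ _ => by
        have : ρ = ∅ := Subsingleton.elim _ _
        subst this
        simp) (fun ρ => sum_eq_zero fun v _ => hV.elim v)
      have h2 := hy ∅
      rw [sum_eq_zero fun v _ => hV.elim v] at h2
      exact one_ne_zero h2
    · exact lempty _ _ k hk
  · rw [not_isEmpty_iff] at hV
    obtain ⟨v0⟩ := hV
    let D : Dir (oct G) (∅ : Set (V ×ₗ Bool)) (V → Bool) :=
      { a := fun p x => Function.update x (ofLex p).1 (!(x (ofLex p).1))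
        up := fun p x => decide (x (ofLex p).1 = (ofLex p).2)
        inv := by
          intro p x
          funext w
          by_cases h : w = (ofLex p).1
          · subst h; simp
          · simp [Function.update_of_ne h]
        comm := by
          intro p q hpq x
          have h2 : (ofLex p).1 ≠ (ofLex q).1 := G.ne_of_adj hpq
          funext w
          by_cases h : w = (ofLex p).1
          · subst h; simp [Function.update_of_ne h2]
          · by_cases h' : w = (ofLex q).1
            · subst h'; simp [Function.update_of_ne h2.symm]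
            · simp [Function.update_of_ne h, Function.update_of_ne h']
        fix := fun v hv => absurd hv (Set.notMem_empty _)
        flip := by
          intro p _ x
          simp only [Function.update_self]
          cases x (ofLex p).1 <;> cases (ofLex p).2 <;> rfl
        par := by
          intro p _ q hpq x
          have h2 : (ofLex p).1 ≠ (ofLex q).1 := G.ne_of_adj hpq
          simp [Function.update_of_ne h2] }
    refine lv_of (morse_family (oct G) ∅ D k
      (fun j A => j = k ∧ ∃ x : V → Bool, A = {p | (ofLex p).2 = x (ofLex p).1}) ?_ ?_ ?_)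
    · intro x
      refine ⟨rfl, x, ?_⟩
      ext p
      show (p ∈ (∅ : Set (V ×ₗ Bool)) ∨ decide (x (ofLex p).1 = (ofLex p).2) = true) ↔ (ofLex p).2 = x (ofLex p).1
      rw [decide_eq_true_iff]
      constructor
      · rintro (h | h)
        · exact absurd h (Set.notMem_empty _)
        · exact h.symm
      · intro h; exact Or.inr h.symm
    · rintro j A ⟨rfl, x, rfl⟩ _
      exact Or.inr (Or.inl ⟨fun v _ => Set.notMem_empty _, homZero_of_ex2 (ex2_copy h1 x)⟩)
    · rintro j A ⟨rfl, x, rfl⟩ hA
      exfalso
      exact hA (show (toLex (v0, x v0) : V ×ₗ Bool) ∈ {p : V ×ₗ Bool | (ofLex p).2 = x (ofLex p).1} from rfl)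

end Pool.Agent.V5helper75.VO
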