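import Mathlib

/-!
# Project VO: extension of cocycles modulo 2 to functions fixed by the zeta transform
-/

set_option autoImplicit false

namespace Pool.Agent.V5helper75.VO

open Finset

variable {V : Type} [LinearOrder V]

/-- the number of elements of `ρ` above `y`, modulo 2 -/
def nn (ρ : Finset V) (y : V) : ZMod 2 := ((ρ.filter (fun x => y < x)).card : ZMod 2)

/-- the extension of the function `c` -/
def ch (c : Finset V → ZMod 2) (ω : Finset V) : ZMod 2 :=
  ∑ ρ ∈ ω.powerset, c ρ * ∏ y ∈ ω \ ρ, nn ρ y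

theorem z2_add_self (a : ZMod 2) : a + a = 0 := CharTwo.add_self_eq_zero a

theorem nn_insert {ρ : Finset V} {x y : V} (hx : x ∉ ρ) :
    nn (insert x ρ) y = nn ρ y + if y < x then 1 else 0 := by
  unfold nn
  rw [filter_insert]
  split_ifs with h
  · rw [card_insert_of_notMem (by simp [hx])]
    push_cast
    rfl
  · rw [add_zero]

/-- telescoping -/
theorem tele (R : Finset V) (n : V → ZMod 2) :
    ∏ y ∈ R, (1 + n y) + ∏ y ∈ R, n y =
      ∑ x ∈ R, ∏ y ∈ R.erase x, (n y + if y < x then 1 else 0) := by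
  have h := Finset.prod_add_ordered R n (fun _ => 1)
  have e1 : ∏ y ∈ R, (n y + 1) = ∏ y ∈ R, (1 + n y) := prod_congr rfl fun y _ => add_comm _ _
  rw [e1] at h
  rw [h, add_comm (∏ y ∈ R, n y), add_assoc, z2_add_self, add_zero]
  refine sum_congr rfl fun x hx => ?_
  rw [one_mul, ← prod_filter_mul_prod_filter_not (R.erase x) (fun y => y < x)]
  have e2 : (R.erase x).filter (fun y => y < x) = R.filter (fun y => y < x) := by
    ext y
    simp only [mem_filter, mem_erase]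
    constructor
    · rintro ⟨⟨_, h1⟩, h2⟩; exact ⟨h1, h2⟩
    · rintro ⟨h1, h2⟩; exact ⟨⟨h2.ne, h1⟩, h2⟩
  have e3 : (R.erase x).filter (fun y => ¬ y < x) = R.filter (fun y => x < y) := by
    ext y
    simp only [mem_filter, mem_erase]
    constructor
    · rintro ⟨⟨h0, h1⟩, h2⟩
      exact ⟨h1, lt_of_le_of_ne (not_lt.1 h2) (Ne.symm h0)⟩
    · rintro ⟨h1, h2⟩; exact ⟨⟨h2.ne', h1⟩, h2.not_gt⟩
  rw [e2, e3]
  congr 1
  · refine prod_congr rfl fun y hy => ?_
    rw [if_pos (mem_filter.1 hy).2]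
  · refine prod_congr rfl fun y hy => ?_
    rw [if_neg (mem_filter.1 hy).2.not_gt, add_zero]

/-- the sum over the supersets -/
theorem sum_between {M : Type} [AddCommMonoid M] {ρ ω : Finset V} (h : ρ ⊆ ω) (F : Finset V → M) :
    ∑ π ∈ ω.powerset.filter (fun π => ρ ⊆ π), F (π \ ρ) = ∑ S ∈ (ω \ ρ).powerset, F S := by
  refine sum_nbij (fun π => π \ ρ) ?_ ?_ ?_ ?_
  · intro π hπ
    rw [mem_filter, mem_powerset] at hπ
    exact mem_powerset.2 (sdiff_subset_sdiff hπ.1 le_rfl)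
  · intro a ha b hb hab
    rw [mem_coe, mem_filter, mem_powerset] at ha hb
    have hab' : a \ ρ = b \ ρ := hab
    rw [← sdiff_union_of_subset ha.2, ← sdiff_union_of_subset hb.2, hab']
  · intro S hS
    rw [mem_coe, mem_powerset] at hS
    refine ⟨S ∪ ρ, ?_, ?_⟩
    · rw [mem_coe, mem_filter, mem_powerset]
      exact ⟨union_subset (hS.trans sdiff_subset) h, subset_union_right⟩
    · show (S ∪ ρ) \ ρ = S
      rw [union_sdiff_right]
      exact sdiff_eq_self_of_disjoint (disjoint_of_subset_left hS sdiff_disjoint)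
  · intro π _; rfl

theorem sum_ch (c : Finset V → ZMod 2) (ω : Finset V) :
    ∑ π ∈ ω.powerset, ch c π = ∑ ρ ∈ ω.powerset, c ρ * ∏ y ∈ ω \ ρ, (1 + nn ρ y) := by
  unfold ch
  rw [sum_comm' (t' := ω.powerset) (s' := fun ρ => ω.powerset.filter (fun π => ρ ⊆ π))]
  · refine sum_congr rfl fun ρ hρ => ?_
    rw [← mul_sum, sum_between (mem_powerset.1 hρ) (fun S => ∏ y ∈ S, nn ρ y), prod_one_add]
  · intro π ρ
    simp only [mem_powerset, mem_filter]
    constructor
    · rintro ⟨h1, h2⟩; exact ⟨⟨h1, h2⟩, h2.trans h1⟩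
    · rintro ⟨⟨h1, h2⟩, _⟩; exact ⟨h1, h2⟩

/-- **the zeta transform fixes the extension of a cocycle** -/
theorem zeta {c : Finset V → ZMod 2} {ω : Finset V} (hc : ∀ τ ⊆ ω, ∑ x ∈ τ, c (τ.erase x) = 0) :
    ∑ π ∈ ω.powerset, ch c π = ch c ω := by
  rw [← sub_eq_zero, sub_eq_add_neg, ZMod.neg_eq_self_mod_two, sum_ch]
  unfold ch
  rw [← sum_add_distrib]
  have h1 : ∀ ρ ∈ ω.powerset, c ρ * ∏ y ∈ ω \ ρ, (1 + nn ρ y) + c ρ * ∏ y ∈ ω \ ρ, nn ρ y =
      ∑ x ∈ ω \ ρ, c ρ * ∏ y ∈ ω \ insert x ρ, nn (insert x ρ) y := by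
    intro ρ _
    rw [← mul_add, tele, mul_sum]
    refine sum_congr rfl fun x hx => ?_
    rw [mem_sdiff] at hx
    have e1 : (ω \ ρ).erase x = ω \ insert x ρ := by
      ext y; simp only [mem_erase, mem_sdiff, mem_insert]; tauto
    rw [e1]
    congr 1
    exact prod_congr rfl fun y _ => (nn_insert hx.2).symm
  rw [sum_congr rfl h1, sum_sigma']
  have h2 : ∑ x ∈ ω.powerset.sigma (fun τ => τ),
      c (x.1.erase x.2) * ∏ y ∈ ω \ x.1, nn x.1 y = 0 := by
    rw [sum_sigma]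
    refine sum_eq_zero fun τ hτ => ?_
    dsimp only
    rw [← sum_mul, hc τ (mem_powerset.1 hτ), zero_mul]
  rw [← h2]
  refine sum_bij (fun (x : Σ _ : Finset V, V) _ => (⟨insert x.2 x.1, x.2⟩ : Σ _ : Finset V, V)) ?_ ?_ ?_ ?_
  · rintro ⟨ρ, x⟩ h
    rw [mem_sigma, mem_powerset, mem_sdiff] at h
    rw [mem_sigma, mem_powerset]
    exact ⟨insert_subset h.2.1 h.1, mem_insert_self _ _⟩
  · rintro ⟨ρ, x⟩ h ⟨ρ', x'⟩ h' e
    rw [mem_sigma, mem_powerset, mem_sdiff] at h h'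
    simp only [Sigma.mk.injEq, heq_eq_eq] at e
    obtain ⟨e1, rfl⟩ := e
    have a1 : x ∉ ρ := h.2.2
    have a2 : x ∉ ρ' := h'.2.2
    have e2 : ρ = ρ' := by
      rw [← erase_insert a1, ← erase_insert a2]
      exact congrArg (fun s => s.erase x) e1
    rw [e2]
  · rintro ⟨τ, x⟩ h
    rw [mem_sigma, mem_powerset] at h
    refine ⟨⟨τ.erase x, x⟩, ?_, ?_⟩
    · rw [mem_sigma, mem_powerset, mem_sdiff]
      exact ⟨(erase_subset _ _).trans h.1, h.1 h.2, notMem_erase _ _⟩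
    · simp only
      rw [insert_erase h.2]
  · rintro ⟨ρ, x⟩ h
    rw [mem_sigma, mem_powerset, mem_sdiff] at h
    simp only
    rw [erase_insert h.2.2]

end Pool.Agent.V5helper75.VO
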